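import Pool.Agent.helper68.BN.BubInt

set_option autoImplicit false
open MeasureTheory Filter Topology Set Metric
open scoped ContDiff Gradient RealInnerProductSpace ENNReal

noncomputable section
namespace Pool.Agent.helper13.BN
variable {N : ℕ}
open BI

namespace BI

theorem nontriv (hN : 3 ≤ N) : Nontrivial (E N) := by
  apply Module.nontrivial_of_finrank_pos (R := ℝ)
  rw [finrank_euclideanSpace, Fintype.card_fin]
  omega

/-- local integrability of `|x-ξ|^{-s}`, `s < N` -/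
theorem near_norm (hN : 3 ≤ N) {s : ℝ} (hs : s < N) (ξ : E N) :
    IntegrableOn (fun x : E N => ‖x - ξ‖ ^ (-s)) (ball ξ 3) := by
  have := nontriv hN
  rw [← integrable_indicator_iff measurableSet_ball]
  have h0 : Integrable (fun y : E N => (Iio (3 : ℝ)).indicator (fun r => r ^ (-s)) ‖y‖) := by
    rw [integrable_fun_norm_addHaar (volume : Measure (E N)), finrank_euclideanSpace,
      Fintype.card_fin]
    have h1 : IntegrableOn (fun r : ℝ => r ^ ((N : ℝ) - 1 - s)) (Ioc 0 3) := by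
      have := intervalIntegral.intervalIntegrable_rpow' (a := 0) (b := 3)
        (r := (N : ℝ) - 1 - s) (by linarith)
      rwa [intervalIntegrable_iff_integrableOn_Ioc_of_le (by norm_num)] at this
    have h2 : IntegrableOn ((Iio (3 : ℝ)).indicator (fun r : ℝ => r ^ ((N : ℝ) - 1 - s))) (Ioi 0) := by
      rw [integrableOn_indicator_iff measurableSet_Iio]
      refine h1.mono_set fun r hr => ⟨hr.2, le_of_lt hr.1⟩
    refine h2.congr_fun (fun r hr => ?_) measurableSet_Ioi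
    have hr : 0 < r := hr
    simp only [smul_eq_mul]
    by_cases h3 : r ∈ Iio (3 : ℝ)
    · rw [indicator_of_mem h3, indicator_of_mem h3, ← Real.rpow_natCast, ← Real.rpow_add hr]
      congr 1
      rw [Nat.cast_sub (by omega)]
      push_cast
      ring
    · rw [indicator_of_notMem h3, indicator_of_notMem h3, mul_zero]
  have h1 := h0.comp_sub_right ξ
  refine h1.congr (Eventually.of_forall fun x => ?_)
  simp only [indicator, mem_Iio, mem_ball, dist_eq_norm]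

theorem near_norm_eq (s : ℝ) (ξ : E N) :
    ∫ x in ball ξ 3, ‖x - ξ‖ ^ (-s) = ∫ x in ball (0 : E N) 3, ‖x‖ ^ (-s) := by
  rw [← integral_indicator measurableSet_ball, ← integral_indicator measurableSet_ball,
    ← integral_sub_right_eq_self (fun x : E N => (ball (0 : E N) 3).indicator
      (fun x => ‖x‖ ^ (-s)) x) ξ]
  refine integral_congr_ae (Eventually.of_forall fun x => ?_)
  simp only [indicator, mem_ball, dist_eq_norm, sub_zero]

theorem bub_cont (hN : 3 ≤ N) {μ : ℝ} (hμ : 0 < μ) (ξ : E N) : Continuous (bub N μ ξ) :=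
  (bub_contDiff hN hμ ξ).continuous

theorem bub_rpow_cont (hN : 3 ≤ N) {μ : ℝ} (hμ : 0 < μ) (ξ : E N) (q : ℝ) :
    Continuous fun x => bub N μ ξ x ^ q :=
  (bub_cont hN hμ ξ).rpow_const fun x => Or.inl (bub_pos hN hμ ξ x).ne'

theorem cont_intOn {F : E N → ℝ} (hF : Continuous F) (ξ : E N) (r : ℝ) :
    IntegrableOn F (ball ξ r) :=
  (hF.continuousOn.integrableOn_compact (isCompact_closedBall ξ r)).mono_set ball_subset_closedBall

end BI

/-- `∫_{B(ξ,3)} U^q ≤ C μ^k` for every `k < min (q c, N - q c)`, also `≤` if `q(N-2) ≠ N` -/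
theorem int_bub_pow (hN : 3 ≤ N) {q k : ℝ} (hq : 0 < q) (h1 : k ≤ q * cc N) (h2 : k ≤ N - q * cc N)
    (h3 : k < q * cc N ∨ k < N - q * cc N) : ∃ C : ℝ, 0 < C ∧
    ∀ (μ : ℝ) (ξ : E N), 0 < μ → μ ≤ 1 →
      Integrable (fun x => bub N μ ξ x ^ q) (volume.restrict (ball ξ 3)) ∧
      ∫ x in ball ξ 3, bub N μ ξ x ^ q ≤ C * μ ^ k := by
  have ha := alN_pos hN
  have hc := cc_pos hN
  have hN3 := cN3 hN
  by_cases h4 : k < N - q * cc N
  · -- local integrability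
    obtain ⟨b, hb0, hb1, hb2, hb3⟩ : ∃ b : ℝ, 0 ≤ b ∧ b ≤ q * cc N ∧ 2 * b < N ∧
        k ≤ 2 * b - q * cc N := by
      refine ⟨max 0 ((k + q * cc N) / 2), le_max_left _ _, ?_, ?_, ?_⟩
      · apply max_le (by positivity)
        linarith
      · rcases max_cases 0 ((k + q * cc N) / 2) with ⟨h, _⟩ | ⟨h, _⟩ <;> rw [h] <;> linarith
      · have := le_max_right 0 ((k + q * cc N) / 2)
        linarith
    set D := ∫ x in ball (0 : E N) 3, ‖x‖ ^ (-(2 * b)) with hD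
    have hDn : 0 ≤ D := setIntegral_nonneg measurableSet_ball fun x _ => by positivity
    refine ⟨alN N ^ q * D + 1, by positivity, fun μ ξ hμ hμ1 => ?_⟩
    refine ⟨cont_intOn (bub_rpow_cont hN hμ ξ q) ξ 3, ?_⟩
    set s := b / cc N with hs
    have hs0 : 0 ≤ s := by positivity
    have hcs : cc N * s = b := by rw [hs]; field_simp
    have hqs : 0 ≤ q - s := by
      have : b / cc N ≤ q := by rw [div_le_iff₀ hc]; exact hb1
      linarith
    have hbd : ∀ x : E N, x ≠ ξ → bub N μ ξ x ^ q ≤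
        alN N ^ q * μ ^ (2 * b - q * cc N) * ‖x - ξ‖ ^ (-(2 * b)) := by
      intro x hx
      have hbp := bub_pos hN hμ ξ x
      have e1 : bub N μ ξ x ^ q = bub N μ ξ x ^ (q - s) * bub N μ ξ x ^ s := by
        rw [← Real.rpow_add hbp]; congr 1; ring
      have e2 := Real.rpow_le_rpow hbp.le (bub_le2 hN hμ ξ x) hqs
      have e3 := bub_rpow_le hN hs0 hμ ξ x hx
      rw [hcs] at e3
      rw [Real.mul_rpow ha.le (by positivity), ← Real.rpow_mul hμ.le] at e2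
      rw [e1]
      refine (mul_le_mul e2 e3 (by positivity) (by positivity)).trans (le_of_eq ?_)
      have e4 : alN N ^ q = alN N ^ (q - s) * alN N ^ s := by
        rw [← Real.rpow_add ha]; congr 1; ring
      have e5 : μ ^ (2 * b - q * cc N) = μ ^ (-cc N * (q - s)) * μ ^ b := by
        rw [← Real.rpow_add hμ]; congr 1
        have : -cc N * (q - s) = cc N * s - q * cc N := by ring
        rw [this, hcs]; ring
      rw [e4, e5]
      ring
    have hne : ∀ᵐ x : E N, x ≠ ξ := by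
      have : volume ({ξ} : Set (E N)) = 0 := by
        have := nontriv hN
        exact measure_singleton ξ
      rw [ae_iff]
      simpa using this
    calc ∫ x in ball ξ 3, bub N μ ξ x ^ q
        ≤ ∫ x in ball ξ 3, alN N ^ q * μ ^ (2 * b - q * cc N) * ‖x - ξ‖ ^ (-(2 * b)) := by
          refine setIntegral_mono_ae (cont_intOn (bub_rpow_cont hN hμ ξ q) ξ 3)
            ((near_norm hN hb2 ξ).const_mul _) ?_
          filter_upwards [hne] with x hx using hbd x hx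
      _ = alN N ^ q * μ ^ (2 * b - q * cc N) * D := by
          rw [integral_const_mul, near_norm_eq]
      _ ≤ alN N ^ q * μ ^ k * D := by
          gcongr ?_ * ?_ * _
          exact Real.rpow_le_rpow_of_exponent_ge hμ hμ1 hb3
      _ ≤ (alN N ^ q * D + 1) * μ ^ k := by
          have : 0 < μ ^ k := by positivity
          nlinarith
  · -- global integrability
    have h5 : k = N - q * cc N := le_antisymm h2 (not_lt.1 h4)
    have h6 : k < q * cc N := h3.resolve_right h4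
    have h7 : (N : ℝ) < 2 * (cc N * q) := by linarith
    refine ⟨∫ y : E N, bub N 1 0 y ^ q, int_one_pos hN h7, fun μ ξ hμ hμ1 => ?_⟩
    refine ⟨cont_intOn (bub_rpow_cont hN hμ ξ q) ξ 3, ?_⟩
    have h8 := int_bub hN h7 hμ ξ
    refine (setIntegral_le_integral h8.1 (Eventually.of_forall fun x => ?_)).trans (le_of_eq ?_)
    · have := bub_pos hN hμ ξ x
      simp only [Pi.zero_apply]
      positivity
    · rw [h8.2, h5]
      congr 2
      ring

namespace BI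

/-- norms as integrals -/
theorem nq_of_int {q : ℝ} (hq : 0 < q) {Ω : Set (E N)} {F : E N → ℝ} (hF : Continuous F)
    (h0 : ∀ x, 0 ≤ F x) (hi : IntegrableOn (fun x => F x ^ q) Ω) :
    Mq q Ω F ∧ nq q Ω F = (∫ x in Ω, F x ^ q) ^ (1 / q) := by
  have hp0 : ENNReal.ofReal q ≠ 0 := by simpa using hq
  have hp1 : ENNReal.ofReal q ≠ ⊤ := ENNReal.ofReal_ne_top
  have hpr : (ENNReal.ofReal q).toReal = q := ENNReal.toReal_ofReal hq.le
  have hM : Mq q Ω F := by
    rw [Mq, ← integrable_norm_rpow_iff hF.aestronglyMeasurable hp0 hp1, hpr]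
    refine hi.congr (Eventually.of_forall fun x => ?_)
    simp only [Real.norm_of_nonneg (h0 x)]
  refine ⟨hM, ?_⟩
  rw [nq, hM.eLpNorm_eq_integral_rpow_norm hp0 hp1, ENNReal.toReal_ofReal (by positivity), hpr,
    one_div]
  congr 1
  refine integral_congr_ae (Eventually.of_forall fun x => ?_)
  simp only [Real.norm_of_nonneg (h0 x)]

theorem pm_td_lt (hN : 3 ≤ N) (hN5 : N ≤ 5) : (N : ℝ) < 2 * (cc N * (pm N * td N)) := by
  have h1 := cc_pm hN
  have h3 := cN3 hN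
  have h5 : (N : ℝ) ≤ 5 := by exact_mod_cast hN5
  have : cc N * (pm N * td N) = 2 * td N := by rw [← h1]; ring
  rw [this, td, show 2 * (2 * (2 * (N : ℝ) / (N + 2))) = 8 * N / (N + 2) from by ring,
    lt_div_iff₀ (by linarith)]
  nlinarith

end BI

/-- `‖U^{p-1}‖_{L^{td}} ≤ C μ^c`, `‖U‖_{L^{td}(B(ξ,3))} ≤ C μ^c`  (`3 ≤ N ≤ 5`) -/
theorem nq_bub_pm (hN : 3 ≤ N) (hN5 : N ≤ 5) : ∃ C : ℝ, 0 < C ∧ ∀ (μ : ℝ) (ξ : E N), 0 < μ →
    Mq (td N) univ (fun x => bub N μ ξ x ^ pm N) ∧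
      nq (td N) univ (fun x => bub N μ ξ x ^ pm N) ≤ C * μ ^ cc N := by
  have htd := td_pos hN
  have h3 := cN3 hN
  have hq := pm_td_lt hN hN5
  have hI := int_one_pos hN hq
  refine ⟨(∫ y : E N, bub N 1 0 y ^ (pm N * td N)) ^ (1 / td N), by positivity, fun μ ξ hμ => ?_⟩
  have h1 := int_bub hN hq hμ ξ
  have he : ∀ x, (bub N μ ξ x ^ pm N) ^ td N = bub N μ ξ x ^ (pm N * td N) := fun x => by
    rw [← Real.rpow_mul (bub_pos hN hμ ξ x).le]
  have hnq := nq_of_int (q := td N) (Ω := univ) htd (bub_rpow_cont hN hμ ξ (pm N))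
    (fun x => (Real.rpow_pos_of_pos (bub_pos hN hμ ξ x) _).le) (by
      simp_rw [he]; exact h1.1.integrableOn)
  refine ⟨hnq.1, ?_⟩
  rw [hnq.2, setIntegral_univ]
  simp_rw [he]
  rw [h1.2, Real.mul_rpow hI.le (by positivity), ← Real.rpow_mul hμ.le]
  apply le_of_eq
  congr 2
  have h4 : cc N * (pm N * td N) = 2 * td N := by rw [← cc_pm hN]; ring
  rw [h4]
  unfold td cc
  have : (N : ℝ) + 2 ≠ 0 := by linarith
  have : (N : ℝ) ≠ 0 := by linarith
  field_simp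
  ring

theorem nq_bub_td (hN : 3 ≤ N) (hN5 : N ≤ 5) : ∃ C : ℝ, 0 < C ∧ ∀ (μ : ℝ) (ξ : E N), 0 < μ →
    μ ≤ 1 → Mq (td N) (ball ξ 3) (bub N μ ξ) ∧
      nq (td N) (ball ξ 3) (bub N μ ξ) ≤ C * μ ^ cc N := by
  have htd := td_pos hN
  have h3 := cN3 hN
  have h5 : (N : ℝ) ≤ 5 := by exact_mod_cast hN5
  have h6 : td N * cc N < N - td N * cc N := by
    have : 2 * (td N * cc N) < N := by
      unfold td cc
      rw [show 2 * (2 * (N : ℝ) / (N + 2) * ((N - 2) / 2)) = 2 * N * (N - 2) / (N + 2) from by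
        ring, div_lt_iff₀ (by linarith)]
      nlinarith
    linarith
  obtain ⟨C, hC, hC'⟩ := int_bub_pow hN (q := td N) (k := td N * cc N) htd le_rfl h6.le (Or.inr h6)
  refine ⟨C ^ (1 / td N), by positivity, fun μ ξ hμ hμ1 => ?_⟩
  have h1 := hC' μ ξ hμ hμ1
  have hnq := nq_of_int (q := td N) (Ω := ball ξ 3) htd (bub_cont hN hμ ξ)
    (fun x => (bub_pos hN hμ ξ x).le) h1.1
  refine ⟨hnq.1, ?_⟩
  rw [hnq.2]
  have h7 : 0 ≤ ∫ x in ball ξ 3, bub N μ ξ x ^ td N :=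
    setIntegral_nonneg measurableSet_ball fun x _ =>
      (Real.rpow_pos_of_pos (bub_pos hN hμ ξ x) _).le
  refine (Real.rpow_le_rpow h7 h1.2 (by positivity)).trans (le_of_eq ?_)
  rw [Real.mul_rpow hC.le (by positivity), ← Real.rpow_mul hμ.le]
  congr 2
  field_simp

theorem Mq_nl_bub (hN : 3 ≤ N) {μ : ℝ} (hμ : 0 < μ) (ξ : E N) :
    Mq (td N) univ (fun x => nl N (bub N μ ξ x)) ∧
      ∀ Ω : Set (E N), nq (td N) Ω (fun x => nl N (bub N μ ξ x)) ≤ sN N ^ (1 / td N) := by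
  have htd := td_pos hN
  simp_rw [nl_bub hN hμ]
  have he : ∀ x, (bub N μ ξ x ^ (pm N + 1)) ^ td N = bub N μ ξ x ^ ts N := fun x => by
    rw [← Real.rpow_mul (bub_pos hN hμ ξ x).le, pm_add_one_td hN]
  have h1 := int_bub_ts hN hμ ξ
  have hnq := nq_of_int (q := td N) (Ω := univ) htd (bub_rpow_cont hN hμ ξ (pm N + 1))
    (fun x => (Real.rpow_pos_of_pos (bub_pos hN hμ ξ x) _).le) (by
      simp_rw [he]; exact h1.1.integrableOn)
  refine ⟨hnq.1, fun Ω => ?_⟩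
  have h2 : nq (td N) univ (fun x => bub N μ ξ x ^ (pm N + 1)) = sN N ^ (1 / td N) := by
    rw [hnq.2, setIntegral_univ]
    simp_rw [he]
    rw [h1.2]
  rw [← h2, nq, nq]
  refine ENNReal.toReal_mono hnq.1.2.ne ?_
  exact eLpNorm_mono_measure _ (Measure.restrict_mono_set _ (subset_univ Ω))

namespace BI

theorem bubMu_scale {μ : ℝ} (hμ : 0 < μ) (ξ x : E N) :
    bubMu N μ ξ x = μ ^ (-cc N) * bubMu N 1 0 (μ⁻¹ • (x - ξ)) := by
  unfold bubMu
  rw [bub_scale hμ ξ x]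
  have h1 : (‖x - ξ‖ ^ 2 - μ ^ 2) / (μ ^ 2 + ‖x - ξ‖ ^ 2) =
      (‖μ⁻¹ • (x - ξ) - 0‖ ^ 2 - 1 ^ 2) / (1 ^ 2 + ‖μ⁻¹ • (x - ξ) - 0‖ ^ 2) := by
    rw [sub_zero, norm_smul, norm_inv, Real.norm_of_nonneg hμ.le,
      div_eq_div_iff (by positivity) (by positivity)]
    field_simp
    try ring
  rw [h1]
  ring

theorem bubXi_scale (e : E N) {μ : ℝ} (hμ : 0 < μ) (ξ x : E N) :
    bubXi N e μ ξ x = μ ^ (-cc N) * bubXi N e 1 0 (μ⁻¹ • (x - ξ)) := by
  unfold bubXi
  rw [bub_scale hμ ξ x]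
  have h1 : μ * ⟪x - ξ, e⟫ / (μ ^ 2 + ‖x - ξ‖ ^ 2) =
      1 * ⟪μ⁻¹ • (x - ξ) - 0, e⟫ / (1 ^ 2 + ‖μ⁻¹ • (x - ξ) - 0‖ ^ 2) := by
    rw [sub_zero, norm_smul, norm_inv, Real.norm_of_nonneg hμ.le, real_inner_smul_left,
      div_eq_div_iff (by positivity) (by positivity)]
    field_simp
  rw [h1]
  ring

theorem bubMu_cont (hN : 3 ≤ N) {μ : ℝ} (hμ : 0 < μ) (ξ : E N) : Continuous (bubMu N μ ξ) := by
  unfold bubMu
  refine Continuous.mul (continuous_const.mul (Continuous.div (by fun_prop) (by fun_prop)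
    fun x => by positivity)) (bub_cont hN hμ ξ)

theorem bubXi_cont (hN : 3 ≤ N) (e : E N) {μ : ℝ} (hμ : 0 < μ) (ξ : E N) :
    Continuous (bubXi N e μ ξ) := by
  unfold bubXi
  refine Continuous.mul (continuous_const.mul (Continuous.div (by fun_prop) (by fun_prop)
    fun x => by positivity)) (bub_cont hN hμ ξ)

theorem dnl_bub (hN : 3 ≤ N) {μ : ℝ} (hμ : 0 < μ) (ξ x : E N) :
    dnl N (bub N μ ξ x) = (pm N + 1) * bub N μ ξ x ^ pm N := by
  rw [dnl, abs_of_pos (bub_pos hN hμ ξ x)]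

theorem bub_neg (μ : ℝ) (y : E N) : bub N μ 0 (-y) = bub N μ 0 y := by
  unfold bub; simp

theorem bubMu_neg (μ : ℝ) (y : E N) : bubMu N μ 0 (-y) = bubMu N μ 0 y := by
  unfold bubMu; rw [bub_neg]; simp

theorem bubXi_neg (e : E N) (μ : ℝ) (y : E N) : bubXi N e μ 0 (-y) = -bubXi N e μ 0 y := by
  unfold bubXi; rw [bub_neg]; simp [neg_div]

theorem integral_odd {F : E N → ℝ} (hF : ∀ y, F (-y) = -F y) : ∫ y, F y = 0 := by
  have h1 := integral_neg_eq_self F (volume : Measure (E N))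
  simp_rw [hF] at h1
  rw [integral_neg] at h1
  linarith

/-- scaling of the products -/
theorem prod_scale (hN : 3 ≤ N) {μ : ℝ} (hμ : 0 < μ) (ξ : E N) {f g : E N → ℝ} {F G : E N → ℝ}
    (hf : ∀ x, f x = μ ^ (-cc N) * F (μ⁻¹ • (x - ξ)))
    (hg : ∀ x, g x = μ ^ (-cc N) * G (μ⁻¹ • (x - ξ))) :
    ∫ x, dnl N (bub N μ ξ x) * (f x * g x) = ∫ y, dnl N (bub N 1 0 y) * (F y * G y) := by
  have h1 : ∀ x, dnl N (bub N μ ξ x) * (f x * g x) = μ ^ (-(N : ℝ)) *
      (dnl N (bub N 1 0 (μ⁻¹ • (x - ξ))) * (F (μ⁻¹ • (x - ξ)) * G (μ⁻¹ • (x - ξ)))) := by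
    intro x
    have h2 : μ ^ (-(N : ℝ)) = μ ^ (-(cc N * pm N)) * μ ^ (-cc N) * μ ^ (-cc N) := by
      rw [← Real.rpow_add hμ, ← Real.rpow_add hμ]
      congr 1
      rw [cc_pm hN]; unfold cc; ring
    rw [dnl_bub hN hμ, dnl_bub hN one_pos, bub_rpow hN hμ, hf, hg, h2]
    ring
  simp_rw [h1]
  rw [integral_const_mul, integral_scale (fun y => dnl N (bub N 1 0 y) * (F y * G y)) hμ ξ,
    ← mul_assoc, ← Real.rpow_add hμ]
  simp

theorem nl_eq_dnl (hN : 3 ≤ N) {μ : ℝ} (hμ : 0 < μ) (ξ x : E N) :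
    nl N (bub N μ ξ x) = (pm N + 1)⁻¹ * (dnl N (bub N μ ξ x) * bub N μ ξ x) := by
  have h1 := pm_pos hN
  have h2 := bub_pos hN hμ ξ x
  rw [nl_bub hN hμ, dnl_bub hN hμ, Real.rpow_add_one h2.ne']
  field_simp

/-- domination of products -/
theorem int_prod (hN : 3 ≤ N) {μ : ℝ} (hμ : 0 < μ) (ξ : E N) {f g : E N → ℝ}
    (hfc : Continuous f) (hgc : Continuous g) {A B : ℝ}
    (hf : ∀ x, |f x| ≤ A * bub N μ ξ x) (hg : ∀ x, |g x| ≤ B * bub N μ ξ x) :
    Integrable (fun x => dnl N (bub N μ ξ x) * (f x * g x)) := by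
  have h0 := pm_pos hN
  have h1 := ((int_bub_ts hN hμ ξ).1).const_mul ((pm N + 1) * (A * B))
  refine h1.mono' ?_ (Eventually.of_forall fun x => ?_)
  · simp_rw [dnl_bub hN hμ]
    exact ((continuous_const.mul (bub_rpow_cont hN hμ ξ (pm N))).mul
      (hfc.mul hgc)).aestronglyMeasurable
  · have h2 := bub_pos hN hμ ξ x
    rw [dnl_bub hN hμ, Real.norm_eq_abs, abs_mul, abs_mul (f x),
      abs_of_pos (a := (pm N + 1) * bub N μ ξ x ^ pm N) (by positivity)]
    have h3 : bub N μ ξ x ^ ts N = bub N μ ξ x ^ pm N * (bub N μ ξ x * bub N μ ξ x) := by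
      rw [← pm_add_two hN, Real.rpow_add h2, Real.rpow_two]; ring
    have h4 : |f x| * |g x| ≤ (A * bub N μ ξ x) * (B * bub N μ ξ x) :=
      mul_le_mul (hf x) (hg x) (abs_nonneg _) ((abs_nonneg _).trans (hf x))
    rw [h3]
    calc (pm N + 1) * bub N μ ξ x ^ pm N * (|f x| * |g x|)
        ≤ (pm N + 1) * bub N μ ξ x ^ pm N * ((A * bub N μ ξ x) * (B * bub N μ ξ x)) := by gcongr
      _ = _ := by ring

/-- the radial integral -/
theorem radial_zero (hN : 3 ≤ N) :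
    ∫ y : E N, (‖y‖ ^ 2 - 1) / (1 + ‖y‖ ^ 2) * (1 + ‖y‖ ^ 2) ^ (-(N : ℝ)) = 0 := by
  have := nontriv hN
  have h3 := cN3 hN
  set f : ℝ → ℝ := fun r => (r ^ 2 - 1) / (1 + r ^ 2) * (1 + r ^ 2) ^ (-(N : ℝ)) with hf
  have hint : Integrable (fun y : E N => f ‖y‖) := by
    refine (jb_int (N := N) (q := N) (by linarith)).mono' ?_ (Eventually.of_forall fun y => ?_)
    · refine Continuous.aestronglyMeasurable ?_
      exact (Continuous.div (by fun_prop) (by fun_prop) fun x => by positivity).mul (jb_cont _)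
    · have h1 : |(‖y‖ ^ 2 - 1) / (1 + ‖y‖ ^ 2)| ≤ 1 := by
        rw [abs_div, div_le_one (by positivity), abs_of_pos (a := 1 + ‖y‖ ^ 2) (by positivity),
          abs_le]
        constructor <;> nlinarith [sq_nonneg ‖y‖]
      have h2 := jb_rpow_pos (N : ℝ) y
      rw [hf]
      simp only
      rw [norm_mul, Real.norm_eq_abs, Real.norm_of_nonneg h2.le]
      nlinarith
  change ∫ y : E N, f ‖y‖ = 0
  rw [integral_fun_norm_addHaar (volume : Measure (E N)) f]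
  rw [integrable_fun_norm_addHaar (volume : Measure (E N))] at hint
  rw [finrank_euclideanSpace, Fintype.card_fin] at *
  have hN0 : (N : ℝ) ≠ 0 := by linarith
  have hF : ∀ r : ℝ, HasDerivAt (fun r : ℝ => -(r / (1 + r ^ 2)) ^ N / N)
      (r ^ (N - 1) • f r) r := by
    intro r
    have hp : (0 : ℝ) < 1 + r ^ 2 := by positivity
    have h1 : HasDerivAt (fun r : ℝ => r / (1 + r ^ 2)) ((1 - r ^ 2) / (1 + r ^ 2) ^ 2) r := by
      have ha : HasDerivAt (fun r : ℝ => 1 + r ^ 2) (2 * r) r := by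
        simpa using (hasDerivAt_pow 2 r).const_add 1
      refine ((hasDerivAt_id' r).div ha hp.ne').congr_deriv ?_
      congr 1
      ring
    refine ((h1.pow N).neg.div_const (N : ℝ)).congr_deriv ?_
    simp only [hf, smul_eq_mul]
    obtain ⟨n, rfl⟩ : ∃ n, N = n + 1 := ⟨N - 1, by omega⟩
    have hexp : (1 + r ^ 2) ^ (-((n + 1 : ℕ) : ℝ)) = ((1 + r ^ 2) ^ (n + 1))⁻¹ := by
      rw [Real.rpow_neg hp.le, Real.rpow_natCast]
    rw [hexp, Nat.add_sub_cancel, div_pow]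
    push_cast at hN0 ⊢
    field_simp
    ring
  have hlim : Tendsto (fun r : ℝ => -(r / (1 + r ^ 2)) ^ N / N) atTop (𝓝 0) := by
    have h1 : Tendsto (fun r : ℝ => r / (1 + r ^ 2)) atTop (𝓝 0) := by
      refine squeeze_zero' (g := fun r : ℝ => r⁻¹) ?_ ?_ tendsto_inv_atTop_zero
      · filter_upwards [eventually_gt_atTop 0] with r hr
        positivity
      · filter_upwards [eventually_gt_atTop 0] with r hr
        rw [div_le_iff₀ (by positivity)]
        field_simp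
        nlinarith
    have h2 := ((h1.pow N).neg).div_const (N : ℝ)
    simpa [show N ≠ 0 by omega] using h2
  have := integral_Ioi_of_hasDerivAt_of_tendsto' (fun r _ => hF r) hint hlim
  rw [this]
  simp [show N ≠ 0 by omega]

end BI

theorem int_nl_bubMu (hN : 3 ≤ N) {μ : ℝ} (hμ : 0 < μ) (ξ : E N) :
    Integrable (fun x => nl N (bub N μ ξ x) * bubMu N μ ξ x) ∧
      ∫ x, nl N (bub N μ ξ x) * bubMu N μ ξ x = 0 := by
  have h1 : ∀ (μ : ℝ) (ξ : E N), 0 < μ → ∀ x, nl N (bub N μ ξ x) * bubMu N μ ξ x =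
      (pm N + 1)⁻¹ * (dnl N (bub N μ ξ x) * (bub N μ ξ x * bubMu N μ ξ x)) := by
    intro μ ξ hμ x
    rw [nl_eq_dnl hN hμ]; ring
  constructor
  · simp_rw [h1 μ ξ hμ]
    refine (int_prod hN hμ ξ (bub_cont hN hμ ξ) (bubMu_cont hN hμ ξ) (A := 1) (B := cc N)
      (fun x => ?_) (bubMu_le hN hμ ξ)).const_mul _
    rw [abs_of_pos (bub_pos hN hμ ξ x), one_mul]
  · simp_rw [h1 μ ξ hμ]
    rw [integral_const_mul, prod_scale hN hμ ξ (bub_scale hμ ξ) (bubMu_scale hμ ξ)]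
    have h2 : ∀ y : E N, dnl N (bub N 1 0 y) * (bub N 1 0 y * bubMu N 1 0 y) =
        ((pm N + 1) * cc N * alN N ^ ts N) *
          ((‖y‖ ^ 2 - 1) / (1 + ‖y‖ ^ 2) * (1 + ‖y‖ ^ 2) ^ (-(N : ℝ))) := by
      intro y
      have hb := bub_pos hN one_pos 0 y
      have h3 : bub N 1 0 y ^ pm N * (bub N 1 0 y * bub N 1 0 y) =
          alN N ^ ts N * (1 + ‖y‖ ^ 2) ^ (-(N : ℝ)) := by
        have h4 := bub_one_rpow hN (ts N) y
        rw [cc_ts hN] at h4
        rw [← h4, ← pm_add_two hN, Real.rpow_add hb, Real.rpow_two]; ring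
      rw [dnl_bub hN one_pos, bubMu]
      simp only [sub_zero, one_pow]
      calc (pm N + 1) * bub N 1 0 y ^ pm N * (bub N 1 0 y *
            (cc N * ((‖y‖ ^ 2 - 1) / (1 + ‖y‖ ^ 2)) * bub N 1 0 y))
          = (pm N + 1) * cc N * ((‖y‖ ^ 2 - 1) / (1 + ‖y‖ ^ 2)) *
            (bub N 1 0 y ^ pm N * (bub N 1 0 y * bub N 1 0 y)) := by ring
        _ = _ := by rw [h3]; ring
    simp_rw [h2]
    rw [integral_const_mul, radial_zero hN]
    simp

theorem int_nl_bubXi (hN : 3 ≤ N) {e : E N} (he : ‖e‖ = 1) {μ : ℝ} (hμ : 0 < μ) (ξ : E N) :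
    Integrable (fun x => nl N (bub N μ ξ x) * bubXi N e μ ξ x) ∧
      ∫ x, nl N (bub N μ ξ x) * bubXi N e μ ξ x = 0 := by
  have h1 : ∀ (μ : ℝ) (ξ : E N), 0 < μ → ∀ x, nl N (bub N μ ξ x) * bubXi N e μ ξ x =
      (pm N + 1)⁻¹ * (dnl N (bub N μ ξ x) * (bub N μ ξ x * bubXi N e μ ξ x)) := by
    intro μ ξ hμ x
    rw [nl_eq_dnl hN hμ]; ring
  constructor
  · simp_rw [h1 μ ξ hμ]
    refine (int_prod hN hμ ξ (bub_cont hN hμ ξ) (bubXi_cont hN e hμ ξ) (A := 1) (B := cc N)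
      (fun x => ?_) (bubXi_le hN he hμ ξ)).const_mul _
    rw [abs_of_pos (bub_pos hN hμ ξ x), one_mul]
  · simp_rw [h1 μ ξ hμ]
    rw [integral_const_mul, prod_scale hN hμ ξ (bub_scale hμ ξ) (bubXi_scale e hμ ξ),
      integral_odd (fun y => ?_), mul_zero]
    rw [bub_neg, bubXi_neg]
    ring

namespace BI

theorem G2_indep (hN : 3 ≤ N) {e e' : E N} (he : ‖e‖ = 1) (he' : ‖e'‖ = 1) :
    ∫ y, dnl N (bub N 1 0 y) * (bubXi N e 1 0 y * bubXi N e 1 0 y) =
      ∫ y, dnl N (bub N 1 0 y) * (bubXi N e' 1 0 y * bubXi N e' 1 0 y) := by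
  set R : E N ≃ₗᵢ[ℝ] E N := Submodule.reflection (ℝ ∙ (e - e'))ᗮ with hR
  have hRe : R e = e' := Submodule.reflection_sub (by rw [he, he'])
  have h1 : ∀ y, bub N 1 0 (R y) = bub N 1 0 y := by
    intro y; unfold bub; simp
  have h2 : ∀ y, bubXi N e' 1 0 (R y) = bubXi N e 1 0 y := by
    intro y
    unfold bubXi
    rw [h1, sub_zero, sub_zero, ← hRe, R.inner_map_map, R.norm_map]
  rw [← (R.measurePreserving.integral_comp' (f := R.toHomeomorph.toMeasurableEquiv)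
    (fun y => dnl N (bub N 1 0 y) * (bubXi N e' 1 0 y * bubXi N e' 1 0 y)))]
  refine integral_congr_ae (Eventually.of_forall fun y => ?_)
  change _ = dnl N (bub N 1 0 (R y)) * (bubXi N e' 1 0 (R y) * bubXi N e' 1 0 (R y))
  rw [h1, h2]

end BI

theorem gram_bub (hN : 3 ≤ N) : ∃ G₁ G₂ : ℝ, 0 < G₁ ∧ 0 < G₂ ∧ ∀ (e : E N), ‖e‖ = 1 →
    ∀ (μ : ℝ) (ξ : E N), 0 < μ →
      ∫ x, dnl N (bub N μ ξ x) * bubMu N μ ξ x ^ 2 = G₁ ∧
      ∫ x, dnl N (bub N μ ξ x) * bubXi N e μ ξ x ^ 2 = G₂ ∧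
      ∫ x, dnl N (bub N μ ξ x) * (bubMu N μ ξ x * bubXi N e μ ξ x) = 0 := by
  have hc := cc_pos hN
  have hp := pm_pos hN
  set e₀ : E N := EuclideanSpace.single ⟨0, by omega⟩ 1 with he₀
  have hn₀ : ‖e₀‖ = 1 := by rw [he₀]; simp
  have hdc : Continuous fun y : E N => dnl N (bub N 1 0 y) := by
    simp_rw [dnl_bub hN one_pos]
    exact continuous_const.mul (bub_rpow_cont hN one_pos 0 (pm N))
  have hdp : ∀ y : E N, 0 < dnl N (bub N 1 0 y) := fun y => by
    rw [dnl_bub hN one_pos]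
    have := bub_pos hN one_pos 0 y
    positivity
  refine ⟨∫ y, dnl N (bub N 1 0 y) * (bubMu N 1 0 y * bubMu N 1 0 y),
    ∫ y, dnl N (bub N 1 0 y) * (bubXi N e₀ 1 0 y * bubXi N e₀ 1 0 y), ?_, ?_, ?_⟩
  · refine integral_pos_of_integrable_nonneg_nonzero
      (hdc.mul ((bubMu_cont hN one_pos 0).mul (bubMu_cont hN one_pos 0)))
      (int_prod hN one_pos 0 (bubMu_cont hN one_pos 0) (bubMu_cont hN one_pos 0)
        (bubMu_le hN one_pos 0) (bubMu_le hN one_pos 0))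
      (fun y => mul_nonneg (hdp y).le (mul_self_nonneg _)) (x := 0) ?_
    refine mul_ne_zero (hdp 0).ne' (mul_self_ne_zero.2 ?_)
    unfold bubMu
    have := bub_pos hN one_pos 0 (0 : E N)
    simp [hc.ne', this.ne']
  · refine integral_pos_of_integrable_nonneg_nonzero
      (hdc.mul ((bubXi_cont hN e₀ one_pos 0).mul (bubXi_cont hN e₀ one_pos 0)))
      (int_prod hN one_pos 0 (bubXi_cont hN e₀ one_pos 0) (bubXi_cont hN e₀ one_pos 0)
        (bubXi_le hN hn₀ one_pos 0) (bubXi_le hN hn₀ one_pos 0))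
      (fun y => mul_nonneg (hdp y).le (mul_self_nonneg _)) (x := e₀) ?_
    refine mul_ne_zero (hdp e₀).ne' (mul_self_ne_zero.2 ?_)
    unfold bubXi
    have := bub_pos hN one_pos 0 e₀
    rw [sub_zero, real_inner_self_eq_norm_sq, hn₀]
    have h2 : (0 : ℝ) < 1 ^ 2 + 1 ^ 2 := by norm_num
    positivity
  · intro e he μ ξ hμ
    refine ⟨?_, ?_, ?_⟩
    · simp_rw [pow_two]
      exact prod_scale hN hμ ξ (bubMu_scale hμ ξ) (bubMu_scale hμ ξ)
    · simp_rw [pow_two]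
      rw [prod_scale hN hμ ξ (bubXi_scale e hμ ξ) (bubXi_scale e hμ ξ)]
      exact G2_indep hN he hn₀
    · rw [prod_scale hN hμ ξ (bubMu_scale hμ ξ) (bubXi_scale e hμ ξ)]
      refine integral_odd fun y => ?_
      rw [bub_neg, bubMu_neg, bubXi_neg]
      ring

end Pool.Agent.helper13.BN
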