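import Pool.Agent.helper68.BN.RepC
import Pool.Agent.helper23.BN.Basic

set_option autoImplicit false
open MeasureTheory Filter Topology Set Metric
open scoped ContDiff Gradient RealInnerProductSpace ENNReal

noncomputable section
namespace Pool.Agent.helper13.BN
variable {N : ℕ}

/-- continuous representative when `Δw` is bounded, with a local modulus of continuity -/
theorem exists_rep (N : ℕ) (hN : 3 ≤ N) : ∃ C : ℝ, 0 < C ∧ ∀ (Ω : Set (E N)), IsOpen Ω →
    ∀ (w : LV N) (g : E N → ℝ) (K : ℝ), AEStronglyMeasurable g (volume.restrict Ω) →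
      Weak Ω w g → (∀ᵐ x, x ∈ Ω → |g x| ≤ K) →
      ∃ v : E N → ℝ, ContinuousOn v Ω ∧ (∀ x ∉ Ω, v x = 0) ∧ fn w =ᵐ[volume] v ∧
        ∀ (x y : E N) (r M : ℝ), 0 < r → ball x (2 * r) ⊆ Ω → ‖x - y‖ ≤ r →
          (∀ z ∈ ball x (2 * r), |v z| ≤ M) → |v x - v y| ≤ C * (K * r ^ 2 + M * ‖x - y‖ / r) := by
  obtain ⟨C, hC, hC'⟩ := Rep.rep_core N
  refine ⟨C, hC, fun Ω hΩ w g K _ hw hg => ?_⟩
  have hwU : w ∈ DD (univ : Set (E N)) := DD_mono (subset_univ Ω) hw.1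
  have hu : LocallyIntegrable (fn w) volume := by
    obtain ⟨S, _, hS⟩ := exists_sob N hN
    have h1 := (hS w hwU).1
    rw [Mq, Measure.restrict_univ] at h1
    refine h1.locallyIntegrable ?_
    rw [ts, ENNReal.one_le_ofReal]
    have h3 : (3 : ℝ) ≤ N := by exact_mod_cast hN
    rw [le_div_iff₀ (by linarith)]
    linarith
  have H : Rep.Hyp Ω (fn w) g K := by
    refine ⟨hΩ, hu, fun φ hφ => ?_, hg⟩
    obtain ⟨W, hW⟩ := exists_isGrad (contDiff_infty.1 hφ.1 1) hφ.2.1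
    have h1 := hw.2 φ W hφ hW
    have h2 := ibp_lap hN hwU (φ := φ) ⟨hφ.1, hφ.2.1, subset_univ _⟩ hW
    linarith
  refine ⟨Rep.rep Ω (fn w), H.rep_cont, fun x hx => Rep.rep_off hx, ?_, ?_⟩
  · filter_upwards [H.rep_ae, fn_zero_off hN hw.1] with x h1 h2
    by_cases hx : x ∈ Ω
    · exact h1 hx
    · rw [h2 hx, Rep.rep_off hx]
  · intro x y r M hr hb hxy hM
    exact hC' Ω (fn w) g K H x y r M hr hb hxy hM

end Pool.Agent.helper13.BN
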