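import Pool.Agent.helper13.BN.Defs

set_option autoImplicit false
open MeasureTheory Filter Topology Set Metric
open scoped ContDiff Gradient RealInnerProductSpace ENNReal

noncomputable section
namespace Pool.Agent.helper13.BN
variable {N : ℕ}

namespace BI

theorem cN3 (hN : 3 ≤ N) : (3 : ℝ) ≤ N := by exact_mod_cast hN

theorem cc_pos (hN : 3 ≤ N) : 0 < cc N := by
  have := cN3 hN
  unfold cc; linarith

theorem alN_pos (hN : 3 ≤ N) : 0 < alN N := by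
  have := cN3 hN
  unfold alN
  apply Real.rpow_pos_of_pos
  nlinarith

theorem pm_pos (hN : 3 ≤ N) : 0 < pm N := by
  have := cN3 hN
  unfold pm
  apply div_pos (by norm_num)
  linarith

theorem cc_pm (hN : 3 ≤ N) : cc N * pm N = 2 := by
  have := cN3 hN
  unfold cc pm
  have : (N : ℝ) - 2 ≠ 0 := by linarith
  field_simp
  norm_num

theorem cc_ts (hN : 3 ≤ N) : cc N * ts N = N := by
  have := cN3 hN
  unfold cc ts
  have : (N : ℝ) - 2 ≠ 0 := by linarith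
  field_simp

theorem pm_add_two (hN : 3 ≤ N) : pm N + 2 = ts N := by
  have := cN3 hN
  unfold pm ts
  have : (N : ℝ) - 2 ≠ 0 := by linarith
  field_simp
  ring

theorem pm_add_one_td (hN : 3 ≤ N) : (pm N + 1) * td N = ts N := by
  have := cN3 hN
  unfold pm ts td
  have : (N : ℝ) - 2 ≠ 0 := by linarith
  have : (N : ℝ) + 2 ≠ 0 := by linarith
  field_simp
  ring

theorem td_pos (hN : 3 ≤ N) : 0 < td N := by
  have := cN3 hN
  unfold td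
  positivity

theorem BI.ts_pos (hN : 3 ≤ N) : 0 < ts N := by
  have := cN3 hN
  unfold ts
  apply div_pos <;> linarith

/-! change of variables -/

theorem integral_scale (F : E N → ℝ) {μ : ℝ} (hμ : 0 < μ) (ξ : E N) :
    ∫ x, F (μ⁻¹ • (x - ξ)) = μ ^ (N : ℝ) * ∫ y, F y := by
  rw [integral_sub_right_eq_self (fun x : E N => F (μ⁻¹ • x)) ξ,
    Measure.integral_comp_inv_smul_of_nonneg volume F hμ.le, finrank_euclideanSpace,
    Fintype.card_fin, smul_eq_mul, Real.rpow_natCast]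

theorem integrable_scale {F : E N → ℝ} (hF : Integrable F) {μ : ℝ} (hμ : 0 < μ) (ξ : E N) :
    Integrable (fun x => F (μ⁻¹ • (x - ξ))) :=
  ((integrable_comp_smul_iff volume F (inv_ne_zero hμ.ne')).2 hF).comp_sub_right ξ

/-! the basic integrals -/

theorem jb_pos (y : E N) : 0 < 1 + ‖y‖ ^ 2 := by positivity

theorem jb_int {q : ℝ} (hq : (N : ℝ) < 2 * q) :
    Integrable (fun y : E N => (1 + ‖y‖ ^ 2) ^ (-q)) := by
  have := integrable_rpow_neg_one_add_norm_sq (E := E N) (μ := volume) (r := 2 * q)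
    (by simpa using hq)
  refine this.congr (Eventually.of_forall fun y => ?_)
  simp only
  congr 1
  ring

theorem jb_cont (q : ℝ) : Continuous (fun y : E N => (1 + ‖y‖ ^ 2) ^ (-q)) := by
  refine Continuous.rpow_const (by fun_prop) fun y => Or.inl (jb_pos y).ne'

theorem jb_rpow_pos (q : ℝ) (y : E N) : 0 < (1 + ‖y‖ ^ 2) ^ (-q) :=
  Real.rpow_pos_of_pos (jb_pos y) _

/-- the integral of `(1+|y|²)^{-q}` -/
def JJ (N : ℕ) (q : ℝ) : ℝ := ∫ y : E N, (1 + ‖y‖ ^ 2) ^ (-q)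

theorem JJ_pos {q : ℝ} (hq : (N : ℝ) < 2 * q) : 0 < JJ N q := by
  unfold JJ
  refine integral_pos_of_integrable_nonneg_nonzero (jb_cont q) (jb_int hq)
    (fun y => (jb_rpow_pos q y).le) (x := 0) (jb_rpow_pos q 0).ne'

theorem JJ_nonneg (q : ℝ) : 0 ≤ JJ N q :=
  integral_nonneg fun y => (jb_rpow_pos q y).le

/-! bubble as a rescaled bubble -/

theorem bub_one (N : ℕ) (y : E N) : bub N 1 0 y = alN N * (1 + ‖y‖ ^ 2) ^ (-cc N) := by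
  unfold bub
  simp

theorem scale_norm {μ : ℝ} (hμ : 0 < μ) (ξ x : E N) :
    μ ^ 2 + ‖x - ξ‖ ^ 2 = μ ^ 2 * (1 + ‖μ⁻¹ • (x - ξ)‖ ^ 2) := by
  rw [norm_smul, norm_inv, Real.norm_of_nonneg hμ.le]
  field_simp

theorem bub_scale {μ : ℝ} (hμ : 0 < μ) (ξ x : E N) :
    bub N μ ξ x = μ ^ (-cc N) * bub N 1 0 (μ⁻¹ • (x - ξ)) := by
  rw [bub_one, bub, scale_norm hμ, Real.mul_rpow (by positivity) (jb_pos _).le,
    ← Real.rpow_natCast μ 2, ← Real.rpow_mul hμ.le]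
  have : μ ^ cc N * μ ^ (((2 : ℕ) : ℝ) * -cc N) = μ ^ (-cc N) := by
    rw [← Real.rpow_add hμ]
    congr 1
    push_cast
    ring
  rw [← this]
  ring

end BI

open BI

theorem bub_pos (hN : 3 ≤ N) {μ : ℝ} (hμ : 0 < μ) (ξ x : E N) : 0 < bub N μ ξ x := by
  have := alN_pos hN
  unfold bub
  positivity

theorem bub_contDiff (hN : 3 ≤ N) {μ : ℝ} (hμ : 0 < μ) (ξ : E N) : ContDiff ℝ ∞ (bub N μ ξ) := by
  unfold bub
  refine contDiff_const.mul (ContDiff.rpow_const_of_ne ?_ fun x => ?_)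
  · exact contDiff_const.add ((contDiff_id.sub contDiff_const).norm_sq ℝ)
  · positivity

namespace BI

theorem nl_bub (hN : 3 ≤ N) {μ : ℝ} (hμ : 0 < μ) (ξ x : E N) :
    nl N (bub N μ ξ x) = bub N μ ξ x ^ (pm N + 1) := by
  have h := bub_pos hN hμ ξ x
  rw [nl, abs_of_pos h, Real.rpow_add_one h.ne']

theorem bub_one_rpow (hN : 3 ≤ N) (q : ℝ) (y : E N) :
    bub N 1 0 y ^ q = alN N ^ q * (1 + ‖y‖ ^ 2) ^ (-(cc N * q)) := by
  rw [bub_one, Real.mul_rpow (alN_pos hN).le (Real.rpow_nonneg (jb_pos _).le _),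
    ← Real.rpow_mul (jb_pos _).le]
  congr 2
  ring

theorem bub_rpow (hN : 3 ≤ N) {μ : ℝ} (hμ : 0 < μ) (ξ x : E N) (q : ℝ) :
    bub N μ ξ x ^ q = μ ^ (-(cc N * q)) * bub N 1 0 (μ⁻¹ • (x - ξ)) ^ q := by
  rw [bub_scale hμ, Real.mul_rpow (by positivity) (bub_pos hN one_pos _ _).le,
    ← Real.rpow_mul hμ.le]
  congr 2
  ring

theorem bub_rpow' (hN : 3 ≤ N) {μ : ℝ} (hμ : 0 < μ) (ξ x : E N) (q : ℝ) :
    bub N μ ξ x ^ q =
      alN N ^ q * (μ ^ (-(cc N * q)) * (1 + ‖μ⁻¹ • (x - ξ)‖ ^ 2) ^ (-(cc N * q))) := by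
  rw [bub_rpow hN hμ, bub_one_rpow hN]
  ring

theorem int_one (hN : 3 ≤ N) {q : ℝ} (hq : (N : ℝ) < 2 * (cc N * q)) :
    Integrable (fun y : E N => bub N 1 0 y ^ q) := by
  simp_rw [bub_one_rpow hN]
  exact (jb_int hq).const_mul _

theorem int_one_pos (hN : 3 ≤ N) {q : ℝ} (hq : (N : ℝ) < 2 * (cc N * q)) :
    0 < ∫ y : E N, bub N 1 0 y ^ q := by
  simp_rw [bub_one_rpow hN]
  rw [integral_const_mul]
  exact mul_pos (Real.rpow_pos_of_pos (alN_pos hN) _) (JJ_pos hq)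

/-- integrals of powers of the bubble -/
theorem int_bub (hN : 3 ≤ N) {q : ℝ} (hq : (N : ℝ) < 2 * (cc N * q)) {μ : ℝ} (hμ : 0 < μ)
    (ξ : E N) : Integrable (fun x => bub N μ ξ x ^ q) ∧
      ∫ x, bub N μ ξ x ^ q = (∫ y : E N, bub N 1 0 y ^ q) * μ ^ (N - cc N * q) := by
  simp_rw [bub_rpow hN hμ]
  refine ⟨(integrable_scale (int_one hN hq) hμ ξ).const_mul _, ?_⟩
  rw [integral_const_mul, integral_scale (fun y => bub N 1 0 y ^ q) hμ ξ]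
  have : μ ^ ((N : ℝ) - cc N * q) = μ ^ (-(cc N * q)) * μ ^ (N : ℝ) := by
    rw [← Real.rpow_add hμ]; congr 1; ring
  rw [this]; ring

theorem q_nl (hN : 3 ≤ N) : (N : ℝ) < 2 * (cc N * (pm N + 1)) := by
  have h1 := cc_pm hN
  have : cc N * (pm N + 1) = cc N + 2 := by linarith
  rw [this]; unfold cc; linarith

theorem q_ts (hN : 3 ≤ N) : (N : ℝ) < 2 * (cc N * ts N) := by
  rw [cc_ts hN]
  have := cN3 hN
  linarith

theorem q_sq (hN : 5 ≤ N) : (N : ℝ) < 2 * (cc N * 2) := by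
  have : (5 : ℝ) ≤ N := by exact_mod_cast hN
  unfold cc
  linarith

end BI

/-- `∫ f(U)` -/
def aN (N : ℕ) : ℝ := ∫ x : E N, nl N (bub N 1 0 x)
/-- `∫ U²` -/
def bN (N : ℕ) : ℝ := ∫ x : E N, bub N 1 0 x ^ 2
/-- `∫ U^{2*}` -/
def sN (N : ℕ) : ℝ := ∫ x : E N, bub N 1 0 x ^ ts N

theorem BI.aN_eq (hN : 3 ≤ N) : aN N = ∫ x : E N, bub N 1 0 x ^ (pm N + 1) := by
  unfold aN
  simp_rw [nl_bub hN one_pos]

theorem BI.bN_eq : bN N = ∫ x : E N, bub N 1 0 x ^ (2 : ℝ) := by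
  unfold bN
  simp_rw [Real.rpow_two]

theorem aN_pos (hN : 3 ≤ N) : 0 < aN N := by
  rw [aN_eq hN]
  exact int_one_pos hN (q_nl hN)

theorem bN_pos (hN : 5 ≤ N) : 0 < bN N := by
  rw [bN_eq]
  exact int_one_pos (by omega) (q_sq hN)

theorem sN_pos (hN : 3 ≤ N) : 0 < sN N := int_one_pos hN (q_ts hN)

theorem bub_le1 (hN : 3 ≤ N) {μ : ℝ} (hμ : 0 < μ) (ξ x : E N) (hx : x ≠ ξ) :
    bub N μ ξ x ≤ alN N * μ ^ cc N * ‖x - ξ‖ ^ (2 - (N : ℝ)) := by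
  have h0 : 0 < ‖x - ξ‖ := norm_pos_iff.2 (sub_ne_zero.2 hx)
  have ha := alN_pos hN
  have hc := cc_pos hN
  unfold bub
  refine mul_le_mul_of_nonneg_left ?_ (by positivity)
  have h1 : ‖x - ξ‖ ^ (2 - (N : ℝ)) = (‖x - ξ‖ ^ 2) ^ (-cc N) := by
    rw [← Real.rpow_natCast ‖x - ξ‖ 2, ← Real.rpow_mul h0.le]
    congr 1
    unfold cc
    push_cast
    ring
  rw [h1]
  refine Real.rpow_le_rpow_of_nonpos (by positivity) ?_ (by linarith)
  nlinarith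

theorem bub_le2 (hN : 3 ≤ N) {μ : ℝ} (hμ : 0 < μ) (ξ x : E N) :
    bub N μ ξ x ≤ alN N * μ ^ (-cc N) := by
  have ha := alN_pos hN
  have hc := cc_pos hN
  rw [bub_scale hμ, bub_one]
  have h1 : (1 + ‖μ⁻¹ • (x - ξ)‖ ^ 2) ^ (-cc N) ≤ 1 := by
    apply Real.rpow_le_one_of_one_le_of_nonpos
    · nlinarith [sq_nonneg ‖μ⁻¹ • (x - ξ)‖]
    · linarith
  have h2 : 0 < μ ^ (-cc N) := by positivity
  calc μ ^ (-cc N) * (alN N * (1 + ‖μ⁻¹ • (x - ξ)‖ ^ 2) ^ (-cc N))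
      ≤ μ ^ (-cc N) * (alN N * 1) := by gcongr
    _ = _ := by ring

theorem bubMu_le (hN : 3 ≤ N) {μ : ℝ} (hμ : 0 < μ) (ξ x : E N) :
    |bubMu N μ ξ x| ≤ cc N * bub N μ ξ x := by
  have hc := cc_pos hN
  have hb := bub_pos hN hμ ξ x
  unfold bubMu
  rw [abs_mul, abs_mul, abs_of_pos hc, abs_of_pos hb]
  have h1 : |(‖x - ξ‖ ^ 2 - μ ^ 2) / (μ ^ 2 + ‖x - ξ‖ ^ 2)| ≤ 1 := by
    rw [abs_div, div_le_one (by positivity), abs_of_pos (a := μ ^ 2 + ‖x - ξ‖ ^ 2) (by positivity),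
      abs_le]
    constructor <;> nlinarith [sq_nonneg ‖x - ξ‖, sq_nonneg μ]
  calc cc N * |(‖x - ξ‖ ^ 2 - μ ^ 2) / (μ ^ 2 + ‖x - ξ‖ ^ 2)| * bub N μ ξ x
      ≤ cc N * 1 * bub N μ ξ x := by gcongr
    _ = _ := by ring

theorem bubXi_le (hN : 3 ≤ N) {e : E N} (he : ‖e‖ = 1) {μ : ℝ} (hμ : 0 < μ) (ξ x : E N) :
    |bubXi N e μ ξ x| ≤ cc N * bub N μ ξ x := by
  have hc := cc_pos hN
  have hb := bub_pos hN hμ ξ x
  unfold bubXi
  rw [abs_mul, abs_mul, abs_of_pos (a := 2 * cc N) (by positivity), abs_of_pos hb]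
  have h0 : |⟪x - ξ, e⟫| ≤ ‖x - ξ‖ := by
    have := abs_real_inner_le_norm (x - ξ) e
    rwa [he, mul_one] at this
  have h1 : |μ * ⟪x - ξ, e⟫ / (μ ^ 2 + ‖x - ξ‖ ^ 2)| ≤ 1 / 2 := by
    rw [abs_div, div_le_iff₀ (by positivity),
      abs_of_pos (a := μ ^ 2 + ‖x - ξ‖ ^ 2) (by positivity), abs_mul, abs_of_pos hμ]
    nlinarith [sq_nonneg (μ - ‖x - ξ‖), norm_nonneg (x - ξ), abs_nonneg ⟪x - ξ, e⟫]
  calc 2 * cc N * |μ * ⟪x - ξ, e⟫ / (μ ^ 2 + ‖x - ξ‖ ^ 2)| * bub N μ ξ x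
      ≤ 2 * cc N * (1 / 2) * bub N μ ξ x := by gcongr
    _ = _ := by ring

theorem int_nl_bub (hN : 3 ≤ N) {μ : ℝ} (hμ : 0 < μ) (ξ : E N) :
    Integrable (fun x => nl N (bub N μ ξ x)) ∧ ∫ x, nl N (bub N μ ξ x) = aN N * μ ^ cc N := by
  simp_rw [nl_bub hN hμ]
  have := int_bub hN (q_nl hN) hμ ξ
  refine ⟨this.1, ?_⟩
  rw [this.2, aN_eq hN]
  congr 2
  have h1 := cc_pm hN
  have : cc N * (pm N + 1) = cc N + 2 := by linarith
  rw [this]; unfold cc; ring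

theorem int_bub_ts (hN : 3 ≤ N) {μ : ℝ} (hμ : 0 < μ) (ξ : E N) :
    Integrable (fun x => bub N μ ξ x ^ ts N) ∧ ∫ x, bub N μ ξ x ^ ts N = sN N := by
  have := int_bub hN (q_ts hN) hμ ξ
  refine ⟨this.1, ?_⟩
  rw [this.2, cc_ts hN, sub_self, Real.rpow_zero, mul_one, sN]

theorem int_bub_sq5 {μ : ℝ} (hμ : 0 < μ) (ξ : E 5) :
    Integrable (fun x => bub 5 μ ξ x ^ 2) ∧ ∫ x, bub 5 μ ξ x ^ 2 = bN 5 * μ ^ 2 := by
  have := int_bub (N := 5) (by norm_num) (q_sq le_rfl) hμ ξ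
  simp_rw [Real.rpow_two] at this
  refine ⟨this.1, ?_⟩
  rw [this.2, bN]
  congr 1
  rw [← Real.rpow_two]
  congr 1
  unfold cc
  norm_num

namespace BI

/-- `|x-ξ|^{-q}` is integrable off a ball, `q > N` -/
theorem tail_norm {q : ℝ} (hq : (N : ℝ) < q) {r : ℝ} (hr : 0 < r) (ξ : E N) :
    IntegrableOn (fun x : E N => ‖x - ξ‖ ^ (-q)) (ball ξ r)ᶜ ∧
      ∫ x in (ball ξ r)ᶜ, ‖x - ξ‖ ^ (-q) ≤ 2 ^ (q / 2) * JJ N (q / 2) * r ^ (N - q) := by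
  have hq0 : 0 < q := lt_of_le_of_lt (Nat.cast_nonneg N) hq
  have hq2 : (N : ℝ) < 2 * (q / 2) := by linarith
  have hb : ∀ x ∈ (ball ξ r)ᶜ, ‖x - ξ‖ ^ (-q) ≤
      r ^ (-q) * (2 ^ (q / 2) * (1 + ‖r⁻¹ • (x - ξ)‖ ^ 2) ^ (-(q / 2))) := by
    intro x hx
    rw [mem_compl_iff, mem_ball, not_lt, dist_eq_norm] at hx
    have h0 : 0 < ‖x - ξ‖ := hr.trans_le hx
    set y : E N := r⁻¹ • (x - ξ) with hy
    have hyn : ‖y‖ = ‖x - ξ‖ / r := by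
      rw [hy, norm_smul, norm_inv, Real.norm_of_nonneg hr.le]; field_simp
    have hy1 : 1 ≤ ‖y‖ := by rw [hyn, one_le_div hr]; exact hx
    have h1 : ‖x - ξ‖ ^ (-q) = r ^ (-q) * ‖y‖ ^ (-q) := by
      rw [← Real.mul_rpow hr.le (norm_nonneg _), hyn]
      congr 1
      field_simp
    rw [h1]
    refine mul_le_mul_of_nonneg_left ?_ (by positivity)
    have h2 : ‖y‖ ^ (-q) = (‖y‖ ^ 2) ^ (-(q / 2)) := by
      rw [← Real.rpow_natCast ‖y‖ 2, ← Real.rpow_mul (norm_nonneg _)]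
      congr 1
      push_cast
      ring
    have h3 : 2 ^ (q / 2) * (1 + ‖y‖ ^ 2) ^ (-(q / 2)) = ((1 + ‖y‖ ^ 2) / 2) ^ (-(q / 2)) := by
      rw [Real.div_rpow (jb_pos y).le (by norm_num), Real.rpow_neg (by norm_num : (0:ℝ) ≤ 2)]
      field_simp
    rw [h2, h3]
    refine Real.rpow_le_rpow_of_nonpos (by positivity) ?_ (by linarith)
    nlinarith
  have hi : Integrable (fun x : E N =>
      r ^ (-q) * (2 ^ (q / 2) * (1 + ‖r⁻¹ • (x - ξ)‖ ^ 2) ^ (-(q / 2)))) :=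
    ((integrable_scale (jb_int hq2) hr ξ).const_mul _).const_mul _
  have hm : AEStronglyMeasurable (fun x : E N => ‖x - ξ‖ ^ (-q))
      (volume.restrict (ball ξ r)ᶜ) := by
    apply Measurable.aestronglyMeasurable
    fun_prop
  have hi1 : IntegrableOn (fun x : E N => ‖x - ξ‖ ^ (-q)) (ball ξ r)ᶜ := by
    refine Integrable.mono' hi.integrableOn hm ?_
    rw [ae_restrict_iff' measurableSet_ball.compl]
    refine Eventually.of_forall fun x hx => ?_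
    rw [Real.norm_of_nonneg (by positivity)]
    exact hb x hx
  refine ⟨hi1, ?_⟩
  calc ∫ x in (ball ξ r)ᶜ, ‖x - ξ‖ ^ (-q)
      ≤ ∫ x in (ball ξ r)ᶜ, r ^ (-q) * (2 ^ (q / 2) * (1 + ‖r⁻¹ • (x - ξ)‖ ^ 2) ^ (-(q / 2))) :=
        setIntegral_mono_on hi1 hi.integrableOn measurableSet_ball.compl hb
    _ ≤ ∫ x, r ^ (-q) * (2 ^ (q / 2) * (1 + ‖r⁻¹ • (x - ξ)‖ ^ 2) ^ (-(q / 2))) := by
        refine setIntegral_le_integral hi (Eventually.of_forall fun x => ?_)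
        have := jb_rpow_pos (q / 2) (r⁻¹ • (x - ξ))
        simp only [Pi.zero_apply]
        positivity
    _ = 2 ^ (q / 2) * JJ N (q / 2) * r ^ (N - q) := by
        rw [integral_const_mul, integral_const_mul,
          integral_scale (fun y => (1 + ‖y‖ ^ 2) ^ (-(q / 2))) hr ξ, JJ]
        have : r ^ ((N : ℝ) - q) = r ^ (-q) * r ^ (N : ℝ) := by
          rw [← Real.rpow_add hr]; congr 1; ring
        rw [this]; ring

/-- decay of powers of the bubble -/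
theorem bub_rpow_le (hN : 3 ≤ N) {q : ℝ} (hq : 0 ≤ q) {μ : ℝ} (hμ : 0 < μ) (ξ x : E N)
    (hx : x ≠ ξ) :
    bub N μ ξ x ^ q ≤ alN N ^ q * μ ^ (cc N * q) * ‖x - ξ‖ ^ (-(2 * (cc N * q))) := by
  have h1 := Real.rpow_le_rpow (bub_pos hN hμ ξ x).le (bub_le1 hN hμ ξ x hx) hq
  refine h1.trans (le_of_eq ?_)
  have ha := alN_pos hN
  rw [Real.mul_rpow (by positivity) (by positivity), Real.mul_rpow ha.le (by positivity),
    ← Real.rpow_mul hμ.le, ← Real.rpow_mul (norm_nonneg _)]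
  congr 2
  unfold cc
  ring

theorem tail_bub (hN : 3 ≤ N) {q : ℝ} (hq : 0 ≤ q) (hq2 : (N : ℝ) < 2 * (cc N * q)) : 
    ∀ (μ r : ℝ) (ξ : E N), 0 < μ → 0 < r →
    ∫ x in (ball ξ r)ᶜ, bub N μ ξ x ^ q ≤
      alN N ^ q * (2 ^ (cc N * q) * JJ N (cc N * q)) * (μ ^ (cc N * q) * r ^ (N - 2 * (cc N * q))) := by
  intro μ r ξ hμ hr
  have h1 := tail_norm hq2 hr ξ
  have ha := alN_pos hN
  calc ∫ x in (ball ξ r)ᶜ, bub N μ ξ x ^ q
      ≤ ∫ x in (ball ξ r)ᶜ, alN N ^ q * μ ^ (cc N * q) * ‖x - ξ‖ ^ (-(2 * (cc N * q))) := by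
        refine setIntegral_mono_on (int_bub hN hq2 hμ ξ).1.integrableOn (h1.1.const_mul _)
          measurableSet_ball.compl fun x hx => ?_
        refine bub_rpow_le hN hq hμ ξ x ?_
        rintro rfl
        exact hx (mem_ball_self hr)
    _ = alN N ^ q * μ ^ (cc N * q) * ∫ x in (ball ξ r)ᶜ, ‖x - ξ‖ ^ (-(2 * (cc N * q))) := by
        rw [integral_const_mul]
    _ ≤ alN N ^ q * μ ^ (cc N * q) * (2 ^ ((2 * (cc N * q)) / 2) * JJ N ((2 * (cc N * q)) / 2) *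
          r ^ (N - 2 * (cc N * q))) := by
        refine mul_le_mul_of_nonneg_left h1.2 (by positivity)
    _ = _ := by
        rw [mul_div_cancel_left₀ _ (two_ne_zero)]
        ring

end BI

/-- tails -/
theorem tail_nl (hN : 3 ≤ N) : ∃ C : ℝ, 0 < C ∧ ∀ (μ r : ℝ) (ξ : E N), 0 < μ → 0 < r →
    ∫ x in (ball ξ r)ᶜ, nl N (bub N μ ξ x) ≤ C * μ ^ cc N * μ ^ 2 / r ^ 2 := by
  have ha := alN_pos hN
  have hJ := JJ_pos (q_nl hN)
  have hp := pm_pos hN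
  refine ⟨alN N ^ (pm N + 1) * (2 ^ (cc N * (pm N + 1)) * JJ N (cc N * (pm N + 1))), by positivity,
    fun μ r ξ hμ hr => ?_⟩
  simp_rw [nl_bub hN hμ]
  refine (tail_bub hN (by positivity) (q_nl hN) μ r ξ hμ hr).trans (le_of_eq ?_)
  have h1 := cc_pm hN
  have h2 : cc N * (pm N + 1) = cc N + 2 := by linarith
  have h3 : μ ^ (cc N * (pm N + 1)) = μ ^ cc N * μ ^ 2 := by
    rw [h2, Real.rpow_add hμ, Real.rpow_two]
  have h4 : r ^ ((N : ℝ) - 2 * (cc N * (pm N + 1))) = (r ^ 2)⁻¹ := by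
    rw [← Real.rpow_two, ← Real.rpow_neg hr.le]
    congr 1
    rw [h2]; unfold cc; ring
  rw [h3, h4]
  ring

theorem tail_ts (hN : 3 ≤ N) : ∃ C : ℝ, 0 < C ∧ ∀ (μ r : ℝ) (ξ : E N), 0 < μ → 0 < r →
    ∫ x in (ball ξ r)ᶜ, bub N μ ξ x ^ ts N ≤ C * (μ / r) ^ (N : ℝ) := by
  have ha := alN_pos hN
  have hJ := JJ_pos (q_ts hN)
  have hp := BI.ts_pos hN
  refine ⟨alN N ^ (ts N) * (2 ^ (cc N * (ts N)) * JJ N (cc N * (ts N))), by positivity,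
    fun μ r ξ hμ hr => ?_⟩
  refine (tail_bub hN (by positivity) (q_ts hN) μ r ξ hμ hr).trans (le_of_eq ?_)
  have h4 : μ ^ (cc N * ts N) * r ^ ((N : ℝ) - 2 * (cc N * ts N)) = (μ / r) ^ (N : ℝ) := by
    rw [cc_ts hN, Real.div_rpow hμ.le hr.le, div_eq_mul_inv, ← Real.rpow_neg hr.le]
    congr 2
    ring
  rw [h4]

theorem tail_sq5 : ∃ C : ℝ, 0 < C ∧ ∀ (μ r : ℝ) (ξ : E 5), 0 < μ → 0 < r →
    ∫ x in (ball ξ r)ᶜ, bub 5 μ ξ x ^ 2 ≤ C * μ ^ 3 / r := by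
  have ha := alN_pos (N := 5) (by norm_num)
  have hJ := JJ_pos (q_sq (N := 5) le_rfl)
  refine ⟨alN 5 ^ (2 : ℝ) * (2 ^ (cc 5 * 2) * JJ 5 (cc 5 * 2)), by positivity,
    fun μ r ξ hμ hr => ?_⟩
  have h1 := tail_bub (N := 5) (by norm_num) (q := 2) (by norm_num) (q_sq le_rfl) μ r ξ hμ hr
  simp_rw [Real.rpow_two] at h1
  refine h1.trans (le_of_eq ?_)
  have h2 : cc 5 * 2 = ((3 : ℕ) : ℝ) := by unfold cc; norm_num
  have h3 : μ ^ (cc 5 * 2) = μ ^ 3 := by rw [h2, Real.rpow_natCast]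
  have h4 : r ^ (((5 : ℕ) : ℝ) - 2 * (cc 5 * 2)) = r⁻¹ := by
    rw [← Real.rpow_neg_one]
    congr 1
    rw [h2]; norm_num
  rw [h3, h4, Real.rpow_two]
  ring

/-- moments, `0 < θ ≤ 1` -/
theorem moment_nl (hN : 3 ≤ N) {θ : ℝ} (hθ : 0 < θ) (hθ1 : θ ≤ 1) : ∃ C : ℝ, 0 < C ∧
    ∀ (μ : ℝ) (ξ : E N), 0 < μ → Integrable (fun x => nl N (bub N μ ξ x) * ‖x - ξ‖ ^ θ) ∧
      ∫ x, nl N (bub N μ ξ x) * ‖x - ξ‖ ^ θ ≤ C * μ ^ cc N * μ ^ θ := by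
  have ha := alN_pos hN
  have h1 := cc_pm hN
  have h2 : cc N * (pm N + 1) = cc N + 2 := by linarith
  have hbd : ∀ y : E N, bub N 1 0 y ^ (pm N + 1) * ‖y‖ ^ θ ≤
      alN N ^ (pm N + 1) * (1 + ‖y‖ ^ 2) ^ (-((N + 1 : ℝ) / 2)) := by
    intro y
    rw [bub_one_rpow hN, mul_assoc]
    refine mul_le_mul_of_nonneg_left ?_ (by positivity)
    have h3 : ‖y‖ ^ θ ≤ (1 + ‖y‖ ^ 2) ^ ((1 : ℝ) / 2) := by
      have h4 : ‖y‖ ^ θ = (‖y‖ ^ 2) ^ (θ / 2) := by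
        rw [← Real.rpow_natCast ‖y‖ 2, ← Real.rpow_mul (norm_nonneg _)]
        congr 1
        push_cast
        ring
      rw [h4]
      calc (‖y‖ ^ 2) ^ (θ / 2) ≤ (1 + ‖y‖ ^ 2) ^ (θ / 2) :=
            Real.rpow_le_rpow (by positivity) (by linarith) (by positivity)
        _ ≤ (1 + ‖y‖ ^ 2) ^ ((1 : ℝ) / 2) :=
            Real.rpow_le_rpow_of_exponent_le (by nlinarith [sq_nonneg ‖y‖]) (by linarith)
    calc (1 + ‖y‖ ^ 2) ^ (-(cc N * (pm N + 1))) * ‖y‖ ^ θ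
        ≤ (1 + ‖y‖ ^ 2) ^ (-(cc N * (pm N + 1))) * (1 + ‖y‖ ^ 2) ^ ((1 : ℝ) / 2) := by
          have := jb_rpow_pos (cc N * (pm N + 1)) y
          gcongr
      _ = (1 + ‖y‖ ^ 2) ^ (-((N + 1 : ℝ) / 2)) := by
          rw [← Real.rpow_add (jb_pos y)]
          congr 1
          rw [h2]; unfold cc; ring
  have hcont : Continuous fun y : E N => bub N 1 0 y ^ (pm N + 1) * ‖y‖ ^ θ := by
    refine Continuous.mul (Continuous.rpow_const (bub_contDiff hN one_pos 0).continuous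
      fun y => Or.inl (bub_pos hN one_pos 0 y).ne') ?_
    exact Continuous.rpow_const continuous_norm fun y => Or.inr hθ.le
  have hint : Integrable fun y : E N => bub N 1 0 y ^ (pm N + 1) * ‖y‖ ^ θ := by
    have hj : Integrable (fun y : E N =>
        alN N ^ (pm N + 1) * (1 + ‖y‖ ^ 2) ^ (-((N + 1 : ℝ) / 2))) :=
      (jb_int (by linarith)).const_mul _
    refine hj.mono' hcont.aestronglyMeasurable (Eventually.of_forall fun y => ?_)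
    have h3 := bub_pos hN one_pos 0 y
    rw [Real.norm_of_nonneg (by positivity)]
    exact hbd y
  have hnn : 0 ≤ ∫ y : E N, bub N 1 0 y ^ (pm N + 1) * ‖y‖ ^ θ := by
    refine integral_nonneg fun y => ?_
    have h3 := bub_pos hN one_pos 0 y
    positivity
  refine ⟨(∫ y : E N, bub N 1 0 y ^ (pm N + 1) * ‖y‖ ^ θ) + 1, by positivity,
    fun μ ξ hμ => ?_⟩
  have heq : ∀ x : E N, nl N (bub N μ ξ x) * ‖x - ξ‖ ^ θ =
      μ ^ (θ - cc N * (pm N + 1)) *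
        (bub N 1 0 (μ⁻¹ • (x - ξ)) ^ (pm N + 1) * ‖μ⁻¹ • (x - ξ)‖ ^ θ) := by
    intro x
    have h5 : ‖x - ξ‖ ^ θ = μ ^ θ * ‖μ⁻¹ • (x - ξ)‖ ^ θ := by
      rw [← Real.mul_rpow hμ.le (norm_nonneg _), norm_smul, norm_inv, Real.norm_of_nonneg hμ.le]
      congr 1
      field_simp
    have h6 : μ ^ (θ - cc N * (pm N + 1)) = μ ^ θ * μ ^ (-(cc N * (pm N + 1))) := by
      rw [← Real.rpow_add hμ]; congr 1
    rw [nl_bub hN hμ, bub_rpow hN hμ, h5, h6]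
    ring
  simp_rw [heq]
  refine ⟨(integrable_scale hint hμ ξ).const_mul _, ?_⟩
  rw [integral_const_mul, integral_scale
    (fun y => bub N 1 0 y ^ (pm N + 1) * ‖y‖ ^ θ) hμ ξ]
  have h6 : μ ^ (θ - cc N * (pm N + 1)) * μ ^ (N : ℝ) = μ ^ cc N * μ ^ θ := by
    rw [← Real.rpow_add hμ, ← Real.rpow_add hμ, h2]
    congr 1
    unfold cc; ring
  have h7 : 0 < μ ^ cc N * μ ^ θ := by positivity
  calc μ ^ (θ - cc N * (pm N + 1)) * (μ ^ (N : ℝ) *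
        ∫ y : E N, bub N 1 0 y ^ (pm N + 1) * ‖y‖ ^ θ)
      = (μ ^ cc N * μ ^ θ) * ∫ y : E N, bub N 1 0 y ^ (pm N + 1) * ‖y‖ ^ θ := by
        rw [← h6]; ring
    _ ≤ (μ ^ cc N * μ ^ θ) * ((∫ y : E N, bub N 1 0 y ^ (pm N + 1) * ‖y‖ ^ θ) + 1) := by
        refine mul_le_mul_of_nonneg_left (by linarith) h7.le
    _ = _ := by ring

end Pool.Agent.helper13.BN
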