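import Pool.Agent.helper13.BN.Defs

set_option autoImplicit false
open MeasureTheory Filter Topology Set Metric
open scoped ContDiff Gradient RealInnerProductSpace ENNReal

noncomputable section
namespace Pool.Agent.helper13.BN.Rep
variable {N : ℕ}

/-- the profile of the mollifier -/
def eta (s : ℝ) : ℝ := Real.smoothTransition (1 - 4 * s)

theorem eta_smooth : ContDiff ℝ ∞ eta :=
  Real.smoothTransition.contDiff.comp (by fun_prop)

theorem eta_nonneg (s : ℝ) : 0 ≤ eta s := Real.smoothTransition.nonneg _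

theorem eta_le_one (s : ℝ) : eta s ≤ 1 := Real.smoothTransition.le_one _

theorem eta_abs (s : ℝ) : |eta s| ≤ 1 := by
  rw [abs_of_nonneg (eta_nonneg s)]; exact eta_le_one s

theorem eta_zero {s : ℝ} (hs : 1 / 4 ≤ s) : eta s = 0 :=
  Real.smoothTransition.zero_of_nonpos (by linarith)

theorem eta_zero_pos : 0 < eta 0 := Real.smoothTransition.pos_of_pos (by norm_num)

theorem deta_zero {s : ℝ} (hs : 1 / 4 < s) : deriv eta s = 0 := by
  have : eta =ᶠ[𝓝 s] fun _ => 0 := by
    filter_upwards [lt_mem_nhds hs] with t ht using eta_zero ht.le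
  rw [this.deriv_eq]; simp

theorem deta_smooth : ContDiff ℝ ∞ (deriv eta) :=
  (contDiff_infty_iff_deriv.1 eta_smooth).2

theorem deta_bdd : ∃ B : ℝ, 0 < B ∧ ∀ s, 0 ≤ s → |deriv eta s| ≤ B := by
  obtain ⟨B, hB⟩ := (isCompact_Icc (a := (0:ℝ)) (b := 1)).exists_bound_of_continuousOn
    (deta_smooth.continuous.continuousOn)
  refine ⟨max B 1, by positivity, fun s hs => ?_⟩
  by_cases h : s ≤ 1
  · exact (hB s ⟨hs, h⟩).trans (le_max_left _ _)
  · rw [deta_zero (by linarith)]; simp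

/-- `h' = -eta/2` -/
def hh (s : ℝ) : ℝ := -(1 / 2) * ∫ τ in (1 : ℝ)..s, eta τ

theorem hh_deriv (s : ℝ) : HasDerivAt hh (-(1 / 2) * eta s) s := by
  have := (intervalIntegral.integral_hasDerivAt_right
    (eta_smooth.continuous.intervalIntegrable 1 s)
    (eta_smooth.continuous.stronglyMeasurableAtFilter _ _) eta_smooth.continuous.continuousAt)
  exact this.const_mul _

theorem deriv_hh : deriv hh = fun s => -(1 / 2) * eta s := by
  ext s; exact (hh_deriv s).deriv

theorem hh_smooth : ContDiff ℝ ∞ hh := by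
  rw [contDiff_infty_iff_deriv]
  refine ⟨fun s => (hh_deriv s).differentiableAt, ?_⟩
  rw [deriv_hh]
  exact contDiff_const.mul eta_smooth

theorem hh_zero {s : ℝ} (hs : 1 / 4 ≤ s) : hh s = 0 := by
  unfold hh
  have : ∫ τ in (1 : ℝ)..s, eta τ = ∫ τ in (1 : ℝ)..s, (0 : ℝ) := by
    refine intervalIntegral.integral_congr fun t ht => ?_
    rw [Set.mem_uIcc] at ht
    refine eta_zero ?_
    rcases ht with h | h
    · linarith [h.1]
    · linarith [h.1]
  rw [this]; simp

theorem hh_abs {s : ℝ} (hs : 0 ≤ s) : |hh s| ≤ 1 := by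
  by_cases h : 1 / 4 ≤ s
  · rw [hh_zero h]; simp
  push Not at h
  unfold hh
  have := intervalIntegral.norm_integral_le_of_norm_le_const (a := 1) (b := s) (f := eta)
    (C := 1) (fun x _ => eta_abs x)
  rw [Real.norm_eq_abs] at this
  rw [abs_mul]
  have h2 : |s - 1| ≤ 1 := by rw [abs_le]; constructor <;> linarith
  have h3 : |(-(1/2) : ℝ)| = 1/2 := by norm_num
  rw [h3]
  nlinarith [abs_nonneg (∫ τ in (1 : ℝ)..s, eta τ)]

theorem hasFDerivAt_normsq (x z : E N) :
    HasFDerivAt (fun z : E N => ‖z - x‖ ^ 2) ((2 : ℝ) • (innerSL ℝ (z - x))) z := by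
  have := ((hasFDerivAt_id z).sub_const x).norm_sq
  simpa [two_smul] using this

theorem lap_radial (k : ℝ → ℝ) (hk : ContDiff ℝ 2 k) (x y : E N) :
    lap (fun z => k (‖z - x‖ ^ 2)) y =
      2 * N * deriv k (‖y - x‖ ^ 2) + 4 * ‖y - x‖ ^ 2 * deriv (deriv k) (‖y - x‖ ^ 2) := by
  have hd : Differentiable ℝ k := hk.differentiable (by norm_num)
  have hd2 : Differentiable ℝ (deriv k) := by
    have h2 : ContDiff ℝ (1 + 1) k := by
      rw [one_add_one_eq_two]; exact hk
    exact ((contDiff_succ_iff_deriv (n := 1)).1 h2).2.2.differentiable (by norm_num)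
  have h1 : ∀ z e : E N, fderiv ℝ (fun z => k (‖z - x‖ ^ 2)) z e =
      deriv k (‖z - x‖ ^ 2) * (2 * ⟪z - x, e⟫) := by
    intro z e
    have := (hd (‖z - x‖ ^ 2)).hasDerivAt.comp_hasFDerivAt z (hasFDerivAt_normsq x z)
    rw [show (fun z : E N => k (‖z - x‖ ^ 2)) = k ∘ (fun z => ‖z - x‖ ^ 2) from rfl, this.fderiv]
    rw [_root_.smul_apply, _root_.smul_apply, innerSL_apply_apply]
    simp only [smul_eq_mul]
  have h2 : ∀ i : Fin N, fderiv ℝ (fun z => fderiv ℝ (fun z => k (‖z - x‖ ^ 2)) z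
      (EuclideanSpace.single i 1)) y (EuclideanSpace.single i 1) =
      2 * deriv k (‖y - x‖ ^ 2) + 4 * (y - x) i ^ 2 * deriv (deriv k) (‖y - x‖ ^ 2) := by
    intro i
    simp_rw [h1]
    have ha : HasFDerivAt (fun z : E N => deriv k (‖z - x‖ ^ 2))
        (deriv (deriv k) (‖y - x‖ ^ 2) • ((2 : ℝ) • (innerSL ℝ (y - x)))) y :=
      HasDerivAt.comp_hasFDerivAt (h₂ := deriv k) y (hd2 (‖y - x‖ ^ 2)).hasDerivAt
        (hasFDerivAt_normsq x y)
    have hb : HasFDerivAt (fun z : E N => 2 * ⟪z - x, (EuclideanSpace.single i 1 : E N)⟫)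
        ((2 : ℝ) • (innerSL ℝ (EuclideanSpace.single i 1 : E N))) y := by
      have h3 : (fun z : E N => 2 * ⟪z - x, (EuclideanSpace.single i 1 : E N)⟫) =
          fun z => ((2 : ℝ) • (innerSL ℝ (EuclideanSpace.single i 1 : E N))) (z - x) := by
        ext z
        simp [real_inner_comm]
      rw [h3]
      exact (((2 : ℝ) • (innerSL ℝ (EuclideanSpace.single i 1 : E N))).hasFDerivAt).comp y
        ((hasFDerivAt_id y).sub_const x)
    rw [show (fun z : E N => deriv k (‖z - x‖ ^ 2) * (2 * ⟪z - x, EuclideanSpace.single i 1⟫)) =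
      (fun z => deriv k (‖z - x‖ ^ 2)) * fun z => 2 * ⟪z - x, EuclideanSpace.single i 1⟫ from rfl,
      (ha.mul hb).fderiv]
    simp [EuclideanSpace.inner_single_right]
    ring
  unfold lap
  rw [Finset.sum_congr rfl fun i _ => h2 i, Finset.sum_add_distrib]
  simp only [Finset.sum_const, Finset.card_univ, Fintype.card_fin, nsmul_eq_mul]
  rw [← Finset.sum_mul, ← Finset.mul_sum]
  have : ∑ i, (y - x) i ^ 2 = ‖y - x‖ ^ 2 := by
    rw [EuclideanSpace.norm_sq_eq]
    simp
  rw [this]; ring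

/-- the test function `H((z - x)/r)` -/
theorem isTest_hh {Ω : Set (E N)} {x : E N} {r : ℝ} (hr : 0 < r) (h : closedBall x (r / 2) ⊆ Ω) :
    IsTest Ω (fun z => hh (‖z - x‖ ^ 2 / r ^ 2)) := by
  have hs : Function.support (fun z : E N => hh (‖z - x‖ ^ 2 / r ^ 2)) ⊆ closedBall x (r / 2) := by
    intro z hz
    rw [Function.mem_support] at hz
    by_contra hc
    apply hz
    apply hh_zero
    rw [mem_closedBall, dist_eq_norm, not_le] at hc
    rw [le_div_iff₀ (by positivity)]
    nlinarith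
  refine ⟨hh_smooth.comp ?_, ?_, ?_⟩
  · exact ((contDiff_id.sub contDiff_const).norm_sq ℝ).div_const _
  · exact HasCompactSupport.intro (isCompact_closedBall x (r / 2)) fun z hz => by
      by_contra hc
      exact hz (hs hc)
  · exact (closure_minimal hs isClosed_closedBall).trans h

theorem lap_hh {r : ℝ} (hr : 0 < r) (x y : E N) :
    lap (fun z => hh (‖z - x‖ ^ 2 / r ^ 2)) y =
      - N * eta (‖y - x‖ ^ 2 / r ^ 2) / r ^ 2 -
        2 * ‖y - x‖ ^ 2 * deriv eta (‖y - x‖ ^ 2 / r ^ 2) / r ^ 4 := by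
  have hk : ContDiff ℝ 2 (fun s => hh (s / r ^ 2)) :=
    (contDiff_infty.1 hh_smooth 2).comp (contDiff_id.div_const _)
  have h1 : deriv (fun s => hh (s / r ^ 2)) = fun s => -(1 / 2) * eta (s / r ^ 2) / r ^ 2 := by
    ext s
    have := (hh_deriv (s / r ^ 2)).comp s ((hasDerivAt_id s).div_const (r ^ 2))
    rw [show (fun s => hh (s / r ^ 2)) = hh ∘ (fun s => id s / r ^ 2) from rfl, this.deriv]
    ring
  have h2 : deriv (deriv (fun s => hh (s / r ^ 2))) =
      fun s => -(1 / 2) * deriv eta (s / r ^ 2) / r ^ 4 := by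
    rw [h1]
    ext s
    have hd : DifferentiableAt ℝ eta (s / r ^ 2) :=
      (eta_smooth.differentiable (by simp)) _
    have := ((hd.hasDerivAt.comp s ((hasDerivAt_id s).div_const (r ^ 2))).const_mul
      (-(1 / 2) : ℝ)).div_const (r ^ 2)
    rw [show (fun s => -(1 / 2) * eta (s / r ^ 2) / r ^ 2) =
      fun s => -(1 / 2) * (eta ∘ (fun s => id s / r ^ 2)) s / r ^ 2 from rfl, this.deriv]
    field_simp
  rw [lap_radial (fun s => hh (s / r ^ 2)) hk x y, h2, h1]
  field_simp
  ring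

end Pool.Agent.helper13.BN.Rep
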