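import Pool.Agent.helper68.BN.RepA

set_option autoImplicit false
open MeasureTheory Filter Topology Set Metric
open scoped ContDiff Gradient RealInnerProductSpace ENNReal

noncomputable section
namespace Pool.Agent.helper13.BN.Rep
variable {N : ℕ}

/-- volume of the unit ball -/
def kap (N : ℕ) : ℝ := (volume : Measure (E N)).real (closedBall 0 1)

theorem kap_pos : 0 < kap N := by
  unfold kap
  rw [measureReal_def, ENNReal.toReal_pos_iff]
  exact ⟨measure_closedBall_pos _ _ one_pos, (isCompact_closedBall _ _).measure_lt_top⟩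

theorem vol_closedBall (x : E N) {r : ℝ} (hr : 0 ≤ r) :
    (volume : Measure (E N)).real (closedBall x r) = r ^ N * kap N := by
  rw [Measure.addHaar_real_closedBall' volume x hr, kap, finrank_euclideanSpace, Fintype.card_fin]

/-- the unnormalised mollification -/
def Mf (u : E N → ℝ) (r : ℝ) (x : E N) : ℝ := ∫ y, u y * ((r ^ N)⁻¹ * eta (‖y - x‖ ^ 2 / r ^ 2))

/-- the derivative kernel -/
def Dk (N : ℕ) (r s : ℝ) : ℝ :=
  r * (r ^ N)⁻¹ * (- N * eta (s / r ^ 2) / r ^ 2 - 2 * s * deriv eta (s / r ^ 2) / r ^ 4)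

theorem ker_deriv {r : ℝ} (hr : 0 < r) (s : ℝ) :
    HasDerivAt (fun r : ℝ => (r ^ N)⁻¹ * eta (s / r ^ 2)) (Dk N r s) r := by
  have hd : DifferentiableAt ℝ eta (s / r ^ 2) := (eta_smooth.differentiable (by simp)) _
  have h1 : HasDerivAt (fun r : ℝ => (r ^ N)⁻¹) (-(N * r ^ (N - 1)) / (r ^ N) ^ 2) r :=
    (hasDerivAt_pow N r).fun_inv (by positivity)
  have h2 : HasDerivAt (fun r : ℝ => s / r ^ 2) (-(2 * s) / r ^ 3) r := by
    have := ((hasDerivAt_pow 2 r).fun_inv (by positivity)).const_mul s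
    have h3 : (fun r : ℝ => s / r ^ 2) = fun r => s * (r ^ 2)⁻¹ := by
      ext; rw [div_eq_mul_inv]
    rw [h3]
    refine this.congr_deriv ?_
    simp only [Nat.cast_ofNat]
    field_simp
    try ring
  have h3 : HasDerivAt (fun r : ℝ => eta (s / r ^ 2)) (deriv eta (s / r ^ 2) * (-(2 * s) / r ^ 3)) r :=
    HasDerivAt.comp (h₂ := eta) r hd.hasDerivAt h2
  refine (h1.mul h3).congr_deriv ?_
  unfold Dk
  rcases N with _ | n
  · simp
    field_simp
    try ring
  · simp only [Nat.add_sub_cancel]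
    field_simp
    try ring

theorem Dk_bdd (N : ℕ) : ∃ B : ℝ, 0 < B ∧ ∀ r s : ℝ, 0 < r → 0 ≤ s → |Dk N r s| ≤ B * (r ^ (N + 1))⁻¹ ∧
    (r ^ 2 < s → Dk N r s = 0) := by
  obtain ⟨B, hB, hB'⟩ := deta_bdd
  refine ⟨N + 2 * B, by positivity, fun r s hr hs => ⟨?_, fun h => ?_⟩⟩
  · unfold Dk
    have h1 : r * (r ^ N)⁻¹ * (- N * eta (s / r ^ 2) / r ^ 2 - 2 * s * deriv eta (s / r ^ 2) / r ^ 4)
        = (- N * eta (s / r ^ 2) - 2 * ((s / r ^ 2) * deriv eta (s / r ^ 2))) * (r ^ (N + 1))⁻¹ := by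
      rw [pow_succ r N]
      field_simp
    rw [h1, abs_mul, abs_of_pos (a := (r ^ (N + 1))⁻¹) (by positivity)]
    refine mul_le_mul_of_nonneg_right ?_ (by positivity)
    have h2 : |(s / r ^ 2) * deriv eta (s / r ^ 2)| ≤ B := by
      by_cases hc : s / r ^ 2 ≤ 1
      · rw [abs_mul, abs_of_nonneg (a := s / r ^ 2) (by positivity)]
        have := hB' (s / r ^ 2) (by positivity)
        have h0 : 0 ≤ s / r ^ 2 := by positivity
        nlinarith [abs_nonneg (deriv eta (s / r ^ 2))]
      · rw [deta_zero (by linarith)]; simpa using hB.le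
    have h3 := eta_abs (s / r ^ 2)
    calc |-(N : ℝ) * eta (s / r ^ 2) - 2 * ((s / r ^ 2) * deriv eta (s / r ^ 2))|
        ≤ |-(N : ℝ) * eta (s / r ^ 2)| + |2 * ((s / r ^ 2) * deriv eta (s / r ^ 2))| := abs_sub _ _
      _ = N * |eta (s / r ^ 2)| + 2 * |(s / r ^ 2) * deriv eta (s / r ^ 2)| := by
          rw [abs_mul, abs_mul, abs_neg, Nat.abs_cast, abs_two]
      _ ≤ N * 1 + 2 * B := by gcongr
      _ = N + 2 * B := by ring
  · have h1 : 1 < s / r ^ 2 := by rwa [one_lt_div (by positivity)]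
    unfold Dk
    rw [eta_zero (by linarith), deta_zero (by linarith)]
    simp

theorem eta_comp_cont (r : ℝ) (x : E N) : Continuous fun y : E N => eta (‖y - x‖ ^ 2 / r ^ 2) :=
  eta_smooth.continuous.comp (by fun_prop)

theorem deta_comp_cont (r : ℝ) (x : E N) :
    Continuous fun y : E N => deriv eta (‖y - x‖ ^ 2 / r ^ 2) :=
  deta_smooth.continuous.comp (by fun_prop)

theorem Dk_cont (r : ℝ) (x : E N) : Continuous fun y : E N => Dk N r (‖y - x‖ ^ 2) := by
  unfold Dk
  have h1 := eta_comp_cont r x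
  have h2 := deta_comp_cont r x
  fun_prop

/-- `u * k` is integrable when `k` is continuous and vanishes off a ball -/
theorem int_mul {u : E N → ℝ} (hu : LocallyIntegrable u volume) {k : E N → ℝ} (hk : Continuous k)
    {x : E N} {R : ℝ} (h0 : ∀ y, y ∉ closedBall x R → k y = 0) :
    Integrable (fun y => u y * k y) volume := by
  have hs : HasCompactSupport k := HasCompactSupport.intro (isCompact_closedBall x R) h0
  have := hu.integrable_smul_left_of_hasCompactSupport hk hs
  simpa [smul_eq_mul, mul_comm] using this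

theorem sq_off {x y : E N} {R : ℝ} (hR : 0 ≤ R) (h : y ∉ closedBall x R) : R ^ 2 < ‖y - x‖ ^ 2 := by
  rw [mem_closedBall, dist_eq_norm, not_le] at h
  exact pow_lt_pow_left₀ h hR (by norm_num)

theorem eta_off {x y : E N} {r : ℝ} (hr : 0 < r) (h : y ∉ closedBall x (r / 2)) :
    eta (‖y - x‖ ^ 2 / r ^ 2) = 0 := by
  have := sq_off (by positivity) h
  apply eta_zero
  rw [le_div_iff₀ (by positivity)]
  nlinarith

theorem eta_off' {x y : E N} {r : ℝ} (hr : 0 < r) (h : y ∉ closedBall x r) :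
    eta (‖y - x‖ ^ 2 / r ^ 2) = 0 := by
  apply eta_off hr
  intro hc
  exact h (closedBall_subset_closedBall (by linarith) hc)

theorem Mf_deriv {u : E N → ℝ} (hu : LocallyIntegrable u volume) {r : ℝ} (hr : 0 < r) (x : E N) :
    HasDerivAt (fun r => Mf u r x) (∫ y, u y * Dk N r (‖y - x‖ ^ 2)) r := by
  obtain ⟨B, hB, hB'⟩ := Dk_bdd N
  unfold Mf
  refine (hasDerivAt_integral_of_dominated_loc_of_deriv_le (s := Ioo (r / 2) (2 * r))
    (bound := fun y => ‖u y‖ * ((closedBall x (2 * r)).indicator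
      (fun _ => B * ((r / 2) ^ (N + 1))⁻¹) y))
    (F := fun r y => u y * ((r ^ N)⁻¹ * eta (‖y - x‖ ^ 2 / r ^ 2)))
    (F' := fun r y => u y * Dk N r (‖y - x‖ ^ 2)) (Ioo_mem_nhds (by linarith) (by linarith))
    ?_ ?_ ?_ ?_ ?_ ?_).2
  · refine Eventually.of_forall fun t => ?_
    exact hu.aestronglyMeasurable.mul
      (((eta_comp_cont t x).const_mul _).aestronglyMeasurable)
  · refine int_mul hu ((eta_comp_cont r x).const_mul _) (x := x) (R := r) fun y hy => ?_
    rw [eta_off' hr hy, mul_zero]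
  · exact hu.aestronglyMeasurable.mul (Dk_cont r x).aestronglyMeasurable
  · refine Eventually.of_forall fun y t ht => ?_
    rw [norm_mul]
    refine mul_le_mul_of_nonneg_left ?_ (norm_nonneg _)
    have ht0 : 0 < t := by linarith [ht.1]
    by_cases hy : y ∈ closedBall x (2 * r)
    · rw [indicator_of_mem hy]
      refine ((hB' t (‖y - x‖ ^ 2) ht0 (by positivity)).1).trans ?_
      have : (r / 2) ^ (N + 1) ≤ t ^ (N + 1) := pow_le_pow_left₀ (by positivity) ht.1.le _
      gcongr
    · rw [indicator_of_notMem hy]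
      have h1 := sq_off (by positivity) hy
      rw [(hB' t (‖y - x‖ ^ 2) ht0 (by positivity)).2 (by nlinarith [ht.2])]
      simp
  · have h1 : IntegrableOn (fun y => ‖u y‖ * (B * ((r / 2) ^ (N + 1))⁻¹)) (closedBall x (2 * r)) :=
      ((hu.integrableOn_isCompact (isCompact_closedBall x (2 * r))).norm).mul_const _
    have h2 := (integrable_indicator_iff measurableSet_closedBall).2 h1
    refine h2.congr (Eventually.of_forall fun y => ?_)
    by_cases hy : y ∈ closedBall x (2 * r)
    · simp [hy]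
    · simp [hy]
  · refine Eventually.of_forall fun y t ht => ?_
    exact (ker_deriv (by linarith [ht.1]) _).const_mul _

end Pool.Agent.helper13.BN.Rep
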