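import Pool.Agent.helper68.BN.RepB

set_option autoImplicit false
open MeasureTheory Filter Topology Set Metric
open scoped ContDiff Gradient RealInnerProductSpace ENNReal

noncomputable section
namespace Pool.Agent.helper13.BN.Rep
variable {N : ℕ}

/-- the normalising constant -/
def cN (N : ℕ) : ℝ := ∫ y : E N, eta (‖y‖ ^ 2)

theorem eta_norm_cont : Continuous fun y : E N => eta (‖y‖ ^ 2) :=
  eta_smooth.continuous.comp (by fun_prop)

theorem eta_norm_supp : HasCompactSupport fun y : E N => eta (‖y‖ ^ 2) :=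
  HasCompactSupport.intro (isCompact_closedBall (0 : E N) 1) fun y hy => by
    apply eta_zero
    rw [mem_closedBall, dist_zero_right, not_le] at hy
    nlinarith

theorem cN_pos : 0 < cN N := by
  refine eta_norm_cont.integral_pos_of_hasCompactSupport_nonneg_nonzero eta_norm_supp
    (fun y => eta_nonneg _) (x := 0) ?_
  simp [eta_zero_pos.ne']

theorem int_ker {r : ℝ} (hr : 0 < r) (x : E N) :
    ∫ y, (r ^ N)⁻¹ * eta (‖y - x‖ ^ 2 / r ^ 2) = cN N := by
  rw [integral_const_mul]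
  have h1 : ∫ y : E N, eta (‖y - x‖ ^ 2 / r ^ 2) = ∫ y : E N, eta (‖y‖ ^ 2 / r ^ 2) :=
    integral_sub_right_eq_self (fun y : E N => eta (‖y‖ ^ 2 / r ^ 2)) x
  have h2 : ∫ y : E N, eta (‖y‖ ^ 2 / r ^ 2) = ∫ y : E N, eta (‖r⁻¹ • y‖ ^ 2) := by
    refine integral_congr_ae (Eventually.of_forall fun y => ?_)
    simp only
    rw [norm_smul, norm_inv, Real.norm_of_nonneg hr.le]
    congr 1
    field_simp
  rw [h1, h2, Measure.integral_comp_inv_smul_of_nonneg volume (fun y : E N => eta (‖y‖ ^ 2)) hr.le,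
    finrank_euclideanSpace, Fintype.card_fin, smul_eq_mul, cN]
  field_simp

theorem hh_off' {x y : E N} {r : ℝ} (hr : 0 < r) (h : y ∉ closedBall x r) :
    hh (‖y - x‖ ^ 2 / r ^ 2) = 0 := by
  have := sq_off (by positivity) h
  apply hh_zero
  rw [le_div_iff₀ (by positivity)]
  nlinarith [sq_nonneg r]

/-- hypotheses on `u`, `g` -/
structure Hyp (Ω : Set (E N)) (u g : E N → ℝ) (K : ℝ) : Prop where
  hO : IsOpen Ω
  hu : LocallyIntegrable u volume
  hw : ∀ φ, IsTest Ω φ → ∫ x, u x * lap φ x = - ∫ x, g x * φ x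
  hg : ∀ᵐ x, x ∈ Ω → |g x| ≤ K

variable {Ω : Set (E N)} {u g : E N → ℝ} {K : ℝ}

theorem Hyp.K_nonneg (H : Hyp Ω u g K) {x : E N} (hx : x ∈ Ω) : 0 ≤ K := by
  by_contra hK
  push Not at hK
  have h1 : ∀ᵐ x, x ∉ Ω := by
    filter_upwards [H.hg] with z hz hzΩ
    have := hz hzΩ
    linarith [abs_nonneg (g z)]
  have h2 : volume Ω = 0 := by
    have := ae_iff.1 h1
    simpa using this
  exact (H.hO.measure_pos volume ⟨x, hx⟩).ne' h2

theorem Hyp.deriv_bd (H : Hyp Ω u g K) {x : E N} {r : ℝ} (hr : 0 < r)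
    (h : closedBall x (r / 2) ⊆ Ω) :
    |∫ y, u y * Dk N r (‖y - x‖ ^ 2)| ≤ K * kap N * r := by
  have hx : x ∈ Ω := h (mem_closedBall_self (by positivity))
  have hK := H.K_nonneg hx
  have h1 : ∫ y, u y * Dk N r (‖y - x‖ ^ 2) =
      r * (r ^ N)⁻¹ * ∫ y, u y * lap (fun z => hh (‖z - x‖ ^ 2 / r ^ 2)) y := by
    rw [← integral_const_mul]
    refine integral_congr_ae (Eventually.of_forall fun y => ?_)
    simp only
    rw [lap_hh hr, Dk]
    ring
  rw [h1, H.hw _ (isTest_hh hr h)]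
  have h2 : |∫ y, g y * hh (‖y - x‖ ^ 2 / r ^ 2)| ≤ K * (r ^ N * kap N) := by
    have h3 : ∫ y, (closedBall x r).indicator (fun _ => K) y = K * (r ^ N * kap N) := by
      rw [integral_indicator measurableSet_closedBall, setIntegral_const, vol_closedBall x hr.le,
        smul_eq_mul, mul_comm]
    rw [← h3, ← Real.norm_eq_abs]
    refine norm_integral_le_of_norm_le ?_ ?_
    · rw [integrable_indicator_iff measurableSet_closedBall]
      exact integrableOn_const (isCompact_closedBall x r).measure_lt_top.ne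
    · filter_upwards [H.hg] with y hy
      by_cases hyb : y ∈ closedBall x (r / 2)
      · have hyb' : y ∈ closedBall x r := closedBall_subset_closedBall (by linarith) hyb
        rw [indicator_of_mem hyb', norm_mul, Real.norm_eq_abs, Real.norm_eq_abs]
        have h5 := hh_abs (s := ‖y - x‖ ^ 2 / r ^ 2) (by positivity)
        have h6 := hy (h hyb)
        nlinarith [abs_nonneg (g y), abs_nonneg (hh (‖y - x‖ ^ 2 / r ^ 2))]
      · have h7 : hh (‖y - x‖ ^ 2 / r ^ 2) = 0 := by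
          have := sq_off (by positivity) hyb
          apply hh_zero
          rw [le_div_iff₀ (by positivity)]
          nlinarith
        rw [h7, mul_zero, norm_zero]
        exact indicator_nonneg (fun _ _ => hK) _
  rw [abs_mul, abs_neg, abs_of_pos (a := r * (r ^ N)⁻¹) (by positivity)]
  calc r * (r ^ N)⁻¹ * |∫ y, g y * hh (‖y - x‖ ^ 2 / r ^ 2)|
      ≤ r * (r ^ N)⁻¹ * (K * (r ^ N * kap N)) := by gcongr
    _ = K * kap N * r := by field_simp

theorem Hyp.Mf_sub (H : Hyp Ω u g K) {x : E N} {r s : ℝ} (hs : 0 < s) (hsr : s ≤ r)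
    (h : closedBall x (r / 2) ⊆ Ω) :
    |Mf u r x - Mf u s x| ≤ K * kap N * r ^ 2 := by
  have hr : 0 < r := hs.trans_le hsr
  have hx : x ∈ Ω := h (mem_closedBall_self (by positivity))
  have hK := H.K_nonneg hx
  have hk := kap_pos (N := N)
  have h1 := Convex.norm_image_sub_le_of_norm_hasDerivWithin_le (s := Icc s r)
    (f := fun r => Mf u r x) (f' := fun r => ∫ y, u y * Dk N r (‖y - x‖ ^ 2)) (C := K * kap N * r)
    (x := s) (y := r)
    (fun t ht => (Mf_deriv H.hu (hs.trans_le ht.1) x).hasDerivWithinAt)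
    (fun t ht => ?_) (convex_Icc s r) ⟨le_rfl, hsr⟩ ⟨hsr, le_rfl⟩
  · rw [Real.norm_eq_abs, Real.norm_eq_abs, abs_of_nonneg (sub_nonneg.2 hsr)] at h1
    refine h1.trans ?_
    have : K * kap N * r * (r - s) ≤ K * kap N * r * r := by
      apply mul_le_mul_of_nonneg_left _ (by positivity)
      linarith
    nlinarith
  · have ht0 : 0 < t := hs.trans_le ht.1
    have := H.deriv_bd ht0 ((closedBall_subset_closedBall (by linarith [ht.2])).trans h)
    refine this.trans ?_
    have := ht.2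
    gcongr

theorem Hyp.exists_lim (H : Hyp Ω u g K) {x : E N} (hx : x ∈ Ω) :
    ∃ L, Tendsto (fun r => Mf u r x) (𝓝[>] 0) (𝓝 L) := by
  obtain ⟨ε, hε, hb⟩ := Metric.nhds_basis_closedBall.mem_iff.1 (H.hO.mem_nhds hx)
  have hK := H.K_nonneg hx
  have hk := kap_pos (N := N)
  refine cauchy_map_iff_exists_tendsto.1 ?_
  rw [Metric.cauchy_iff]
  refine ⟨inferInstance, fun δ hδ => ?_⟩
  obtain ⟨r, hr, hr1, hr2⟩ : ∃ r : ℝ, 0 < r ∧ r ≤ ε ∧ K * kap N * r ^ 2 < δ := by
    have h1 : Tendsto (fun r : ℝ => K * kap N * r ^ 2) (𝓝[>] 0) (𝓝 (K * kap N * 0 ^ 2)) :=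
      ((continuous_const.mul (continuous_pow 2)).tendsto 0).mono_left nhdsWithin_le_nhds
    have h2 : ∀ᶠ r : ℝ in 𝓝[>] 0, K * kap N * r ^ 2 < δ := by
      apply h1.eventually (gt_mem_nhds _)
      simpa using hδ
    have h3 : ∀ᶠ r : ℝ in 𝓝[>] 0, r ≤ ε :=
      nhdsWithin_le_nhds (Iic_mem_nhds hε)
    obtain ⟨r, ha, hb, hc⟩ := (h2.and (h3.and self_mem_nhdsWithin)).exists
    exact ⟨r, hc, hb, ha⟩
  refine ⟨(fun r => Mf u r x) '' Ioc 0 r, image_mem_map (Ioc_mem_nhdsGT hr), ?_⟩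
  have key : ∀ s t : ℝ, 0 < s → s ≤ t → t ≤ r → |Mf u t x - Mf u s x| < δ := by
    intro s t h1 h2 h3
    have := H.Mf_sub h1 h2 ((closedBall_subset_closedBall (by linarith)).trans hb)
    refine this.trans_lt (lt_of_le_of_lt ?_ hr2)
    have : 0 < t := h1.trans_le h2
    gcongr
  rintro _ ⟨s, hs, rfl⟩ _ ⟨t, ht, rfl⟩
  rw [Real.dist_eq]
  rcases le_total s t with h | h
  · rw [abs_sub_comm]; exact key s t hs.1 h ht.2
  · exact key t s ht.1 h hs.2

open Classical in
/-- the representative -/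
def rep (Ω : Set (E N)) (u : E N → ℝ) (x : E N) : ℝ :=
  if x ∈ Ω then (cN N)⁻¹ * limUnder (𝓝[>] (0 : ℝ)) (fun r => Mf u r x) else 0

theorem rep_off {x : E N} (hx : x ∉ Ω) : rep Ω u x = 0 := by simp [rep, hx]

theorem Hyp.tendsto_rep (H : Hyp Ω u g K) {x : E N} (hx : x ∈ Ω) :
    Tendsto (fun r => (cN N)⁻¹ * Mf u r x) (𝓝[>] 0) (𝓝 (rep Ω u x)) := by
  obtain ⟨L, hL⟩ := H.exists_lim hx
  have h1 : rep Ω u x = (cN N)⁻¹ * L := by
    unfold rep
    rw [if_pos hx, hL.limUnder_eq]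
  rw [h1]
  exact hL.const_mul _

theorem Hyp.rep_sub (H : Hyp Ω u g K) {x : E N} {r : ℝ} (hr : 0 < r)
    (h : closedBall x (r / 2) ⊆ Ω) :
    |rep Ω u x - (cN N)⁻¹ * Mf u r x| ≤ (cN N)⁻¹ * kap N * K * r ^ 2 := by
  have hx : x ∈ Ω := h (mem_closedBall_self (by positivity))
  have hc := cN_pos (N := N)
  refine le_of_tendsto (((H.tendsto_rep hx).sub_const ((cN N)⁻¹ * Mf u r x)).abs) ?_
  filter_upwards [Ioc_mem_nhdsGT hr] with s hs
  have := H.Mf_sub hs.1 hs.2 h
  rw [← mul_sub, abs_mul, abs_of_pos (a := (cN N)⁻¹) (by positivity), abs_sub_comm]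
  calc (cN N)⁻¹ * |Mf u r x - Mf u s x| ≤ (cN N)⁻¹ * (K * kap N * r ^ 2) := by gcongr
    _ = _ := by ring

/-- Lipschitz constant of the mollifier -/
theorem exists_lip (N : ℕ) : ∃ L : ℝ, 0 < L ∧ ∀ x y : E N,
    |eta (‖x‖ ^ 2) - eta (‖y‖ ^ 2)| ≤ L * ‖x - y‖ := by
  have h1 : ContDiff ℝ 1 (fun y : E N => eta (‖y‖ ^ 2)) :=
    (contDiff_infty.1 eta_smooth 1).comp (contDiff_id.norm_sq ℝ)
  obtain ⟨C, hC⟩ := ContDiff.lipschitzWith_of_hasCompactSupport (eta_norm_supp (N := N)) h1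
    one_ne_zero
  refine ⟨C + 1, by positivity, fun x y => ?_⟩
  have := hC.dist_le_mul x y
  rw [Real.dist_eq, dist_eq_norm] at this
  nlinarith [norm_nonneg (x - y)]

theorem Mf_lip {L : ℝ} (hL : ∀ x y : E N, |eta (‖x‖ ^ 2) - eta (‖y‖ ^ 2)| ≤ L * ‖x - y‖)
    (hu : LocallyIntegrable u volume) {x y : E N} {r : ℝ} (hr : 0 < r) (hxy : ‖x - y‖ ≤ r) :
    |Mf u r x - Mf u r y| ≤ (∫ z in ball x (2 * r), |u z|) * (L * ‖x - y‖ / r * (r ^ N)⁻¹) := by
  have hi : ∀ x : E N, Integrable (fun y => u y * ((r ^ N)⁻¹ * eta (‖y - x‖ ^ 2 / r ^ 2))) := by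
    intro x
    refine int_mul hu ((eta_comp_cont r x).const_mul _) (x := x) (R := r) fun y hy => ?_
    rw [eta_off' hr hy, mul_zero]
  unfold Mf
  rw [← integral_sub (hi x) (hi y), ← integral_mul_const, ← integral_indicator measurableSet_ball,
    ← Real.norm_eq_abs]
  refine norm_integral_le_of_norm_le ?_ (Eventually.of_forall fun z => ?_)
  · rw [integrable_indicator_iff measurableSet_ball]
    exact (((hu.integrableOn_isCompact (isCompact_closedBall x (2 * r))).mono_set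
      ball_subset_closedBall).norm).mul_const _
  · have hsc : ∀ x : E N, eta (‖z - x‖ ^ 2 / r ^ 2) = eta (‖r⁻¹ • (z - x)‖ ^ 2) := by
      intro x
      rw [norm_smul, norm_inv, Real.norm_of_nonneg hr.le]
      congr 1
      field_simp
    by_cases hz : z ∈ ball x (2 * r)
    · rw [indicator_of_mem hz, ← mul_sub, ← mul_sub, norm_mul, norm_mul,
        Real.norm_of_nonneg (r := (r ^ N)⁻¹) (by positivity), Real.norm_eq_abs, Real.norm_eq_abs]
      refine mul_le_mul_of_nonneg_left ?_ (abs_nonneg _)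
      rw [mul_comm]
      refine mul_le_mul_of_nonneg_right ?_ (by positivity)
      rw [hsc, hsc]
      refine (hL _ _).trans ?_
      rw [← smul_sub, norm_smul, norm_inv, Real.norm_of_nonneg hr.le]
      have : z - x - (z - y) = y - x := by abel
      rw [this, norm_sub_rev y x]
      apply le_of_eq
      field_simp
    · rw [indicator_of_notMem hz]
      have h1 : z ∉ closedBall x (r / 2) := fun hc =>
        hz ((closedBall_subset_ball (by linarith)) hc)
      have h2 : z ∉ closedBall y (r / 2) := fun hc => hz (by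
        rw [mem_closedBall, dist_eq_norm] at hc
        rw [mem_ball, dist_eq_norm]
        have : z - x = (z - y) - (x - y) := by abel
        rw [this]
        exact lt_of_le_of_lt (norm_sub_le _ _) (by linarith))
      rw [eta_off hr h1, eta_off hr h2]
      simp

theorem Mf_cont {L : ℝ} (hL : ∀ x y : E N, |eta (‖x‖ ^ 2) - eta (‖y‖ ^ 2)| ≤ L * ‖x - y‖)
    (hu : LocallyIntegrable u volume) {r : ℝ} (hr : 0 < r) (x : E N) :
    ContinuousAt (Mf u r) x := by
  rw [ContinuousAt, tendsto_iff_norm_sub_tendsto_zero]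
  have h0 : Tendsto (fun y : E N => (∫ z in ball x (2 * r), |u z|) *
      (L * ‖x - y‖ / r * (r ^ N)⁻¹)) (𝓝 x) (𝓝 0) := by
    have hc : Continuous (fun y : E N => (∫ z in ball x (2 * r), |u z|) *
      (L * ‖x - y‖ / r * (r ^ N)⁻¹)) := by fun_prop
    have := hc.tendsto x
    simpa using this
  refine squeeze_zero' (Eventually.of_forall fun y => norm_nonneg _) ?_ h0
  filter_upwards [closedBall_mem_nhds x hr] with y hy
  rw [mem_closedBall, dist_comm, dist_eq_norm] at hy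
  rw [norm_sub_rev]
  exact Mf_lip hL hu hr hy

theorem Hyp.rep_cont (H : Hyp Ω u g K) : ContinuousOn (rep Ω u) Ω := by
  intro x hx
  apply ContinuousAt.continuousWithinAt
  obtain ⟨L, hL0, hL⟩ := exists_lip N
  obtain ⟨ε, hε, hb⟩ := Metric.nhds_basis_closedBall.mem_iff.1 (H.hO.mem_nhds hx)
  have hK := H.K_nonneg hx
  have hk := kap_pos (N := N)
  have hc := cN_pos (N := N)
  -- locally uniform limit of continuous functions
  have hloc : ∀ y ∈ closedBall x (ε / 2), ∀ r, 0 < r → r ≤ ε →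
      |rep Ω u y - (cN N)⁻¹ * Mf u r y| ≤ (cN N)⁻¹ * kap N * K * r ^ 2 := by
    intro y hy r hr hre
    refine H.rep_sub hr fun z hz => hb ?_
    rw [mem_closedBall] at *
    calc dist z x ≤ dist z y + dist y x := dist_triangle _ _ _
      _ ≤ ε := by linarith
  rw [Metric.continuousAt_iff']
  intro δ hδ
  obtain ⟨r, hr, hr1, hr2⟩ : ∃ r : ℝ, 0 < r ∧ r ≤ ε ∧ (cN N)⁻¹ * kap N * K * r ^ 2 < δ / 3 := by
    have h1 : Tendsto (fun r : ℝ => (cN N)⁻¹ * kap N * K * r ^ 2) (𝓝[>] 0)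
        (𝓝 ((cN N)⁻¹ * kap N * K * 0 ^ 2)) :=
      ((continuous_const.mul (continuous_pow 2)).tendsto 0).mono_left nhdsWithin_le_nhds
    have h2 : ∀ᶠ r : ℝ in 𝓝[>] 0, (cN N)⁻¹ * kap N * K * r ^ 2 < δ / 3 := by
      apply h1.eventually (gt_mem_nhds _)
      simpa using hδ
    have h3 : ∀ᶠ r : ℝ in 𝓝[>] 0, r ≤ ε :=
      nhdsWithin_le_nhds (Iic_mem_nhds hε)
    obtain ⟨r, ha, hb, hc⟩ := (h2.and (h3.and self_mem_nhdsWithin)).exists
    exact ⟨r, hc, hb, ha⟩
  have hM := Metric.continuousAt_iff'.1 ((Mf_cont hL H.hu hr x).const_mul (cN N)⁻¹) (δ / 3)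
    (by positivity)
  filter_upwards [hM, closedBall_mem_nhds x (half_pos hε)] with y hy hyb
  have h1 := hloc y hyb r hr hr1
  have h2 := hloc x (mem_closedBall_self (by positivity)) r hr hr1
  rw [Real.dist_eq] at *
  rw [abs_lt] at *
  rw [abs_le] at h1 h2
  constructor <;> linarith [h1.1, h1.2, h2.1, h2.2, hy.1, hy.2]

theorem ae_lebesgue (hu : LocallyIntegrable u volume) :
    ∀ᵐ x : E N, Tendsto (fun r => (cN N)⁻¹ * Mf u r x) (𝓝[>] 0) (𝓝 (u x)) := by
  filter_upwards [IsUnifLocDoublingMeasure.ae_tendsto_average_norm_sub volume hu 1] with x hx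
  have h1 := hx (l := 𝓝[>] (0 : ℝ)) (fun _ => x) id tendsto_id (by
    filter_upwards [self_mem_nhdsWithin] with r hr
    exact mem_closedBall_self (by simpa using (le_of_lt hr)))
  have hc := cN_pos (N := N)
  have hk := kap_pos (N := N)
  rw [tendsto_iff_norm_sub_tendsto_zero]
  have h2 := h1.const_mul ((cN N)⁻¹ * kap N)
  rw [mul_zero] at h2
  refine squeeze_zero' (Eventually.of_forall fun y => norm_nonneg _) ?_ h2
  filter_upwards [self_mem_nhdsWithin] with r hr
  have hr : 0 < r := hr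
  have hi : Integrable (fun y => u y * ((r ^ N)⁻¹ * eta (‖y - x‖ ^ 2 / r ^ 2))) := by
    refine int_mul hu ((eta_comp_cont r x).const_mul _) (x := x) (R := r) fun y hy => ?_
    rw [eta_off' hr hy, mul_zero]
  have hi2 : Integrable (fun y => (r ^ N)⁻¹ * eta (‖y - x‖ ^ 2 / r ^ 2)) := by
    refine ((eta_comp_cont r x).const_mul _).integrable_of_hasCompactSupport ?_
    refine HasCompactSupport.intro (isCompact_closedBall x r) fun y hy => ?_
    rw [eta_off' hr hy, mul_zero]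
  have h3 : (cN N)⁻¹ * Mf u r x - u x =
      (cN N)⁻¹ * ∫ y, (u y - u x) * ((r ^ N)⁻¹ * eta (‖y - x‖ ^ 2 / r ^ 2)) := by
    simp_rw [sub_mul]
    rw [integral_sub hi (hi2.const_mul _), integral_const_mul, int_ker hr, Mf]
    field_simp
  rw [h3, norm_mul, Real.norm_of_nonneg (r := (cN N)⁻¹) (by positivity), mul_assoc]
  refine mul_le_mul_of_nonneg_left ?_ (by positivity)
  have h4 : kap N * ⨍ y in closedBall x (id r), ‖u y - u x‖ =
      ∫ y in closedBall x r, ‖u y - u x‖ * (r ^ N)⁻¹ := by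
    rw [setAverage_eq, id, vol_closedBall x hr.le, integral_mul_const, smul_eq_mul]
    field_simp
  rw [h4, ← integral_indicator measurableSet_closedBall]
  refine norm_integral_le_of_norm_le ?_ (Eventually.of_forall fun y => ?_)
  · rw [integrable_indicator_iff measurableSet_closedBall]
    refine Integrable.mul_const ?_ _
    exact ((hu.integrableOn_isCompact (isCompact_closedBall x r)).sub
      (integrableOn_const (isCompact_closedBall x r).measure_lt_top.ne)).norm
  · by_cases hy : y ∈ closedBall x r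
    · rw [indicator_of_mem hy, norm_mul, norm_mul,
        Real.norm_of_nonneg (r := (r ^ N)⁻¹) (by positivity)]
      refine mul_le_mul_of_nonneg_left ?_ (norm_nonneg _)
      have := eta_abs (‖y - x‖ ^ 2 / r ^ 2)
      rw [Real.norm_eq_abs]
      have h5 : 0 < (r ^ N)⁻¹ := by positivity
      nlinarith
    · rw [indicator_of_notMem hy, eta_off' hr hy]
      simp

theorem Hyp.rep_ae (H : Hyp Ω u g K) : ∀ᵐ x, x ∈ Ω → u x = rep Ω u x := by
  filter_upwards [ae_lebesgue H.hu] with x hx hxΩ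
  exact tendsto_nhds_unique hx (H.tendsto_rep hxΩ)

theorem rep_core (N : ℕ) : ∃ C : ℝ, 0 < C ∧ ∀ (Ω : Set (E N)) (u g : E N → ℝ) (K : ℝ),
    Hyp Ω u g K → ∀ (x y : E N) (r M : ℝ), 0 < r → ball x (2 * r) ⊆ Ω → ‖x - y‖ ≤ r →
      (∀ z ∈ ball x (2 * r), |rep Ω u z| ≤ M) →
      |rep Ω u x - rep Ω u y| ≤ C * (K * r ^ 2 + M * ‖x - y‖ / r) := by
  obtain ⟨L, hL0, hL⟩ := exists_lip N
  have hk := kap_pos (N := N)
  have hc := cN_pos (N := N)
  refine ⟨2 * (cN N)⁻¹ * kap N + (cN N)⁻¹ * L * kap N * 2 ^ N, by positivity, ?_⟩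
  intro Ω u g K H x y r M hr hb hxy hM
  have hxb : x ∈ ball x (2 * r) := mem_ball_self (by positivity)
  have hM0 : 0 ≤ M := (abs_nonneg _).trans (hM x hxb)
  have hK := H.K_nonneg (hb hxb)
  have h1 := H.rep_sub (x := x) hr ((closedBall_subset_ball (by linarith)).trans hb)
  have h2 := H.rep_sub (x := y) hr (by
    intro z hz
    apply hb
    rw [mem_closedBall, dist_eq_norm] at hz
    rw [mem_ball, dist_eq_norm]
    have : z - x = (z - y) - (x - y) := by abel
    rw [this]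
    exact lt_of_le_of_lt (norm_sub_le _ _) (by linarith))
  have h3 := Mf_lip hL H.hu (x := x) (y := y) hr hxy
  have h4 : ∫ z in ball x (2 * r), |u z| ≤ M * ((2 * r) ^ N * kap N) := by
    have h5 : ∫ z in ball x (2 * r), |u z| ≤ ∫ z in ball x (2 * r), M := by
      refine setIntegral_mono_on_ae ?_ ?_ measurableSet_ball ?_
      · exact ((H.hu.integrableOn_isCompact (isCompact_closedBall x (2 * r))).mono_set
          ball_subset_closedBall).norm
      · exact integrableOn_const measure_ball_lt_top.ne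
      · filter_upwards [H.rep_ae] with z hz hzb
        rw [hz (hb hzb)]
        exact hM z hzb
    refine h5.trans ?_
    rw [setIntegral_const, smul_eq_mul, mul_comm]
    refine mul_le_mul_of_nonneg_left ?_ hM0
    rw [← vol_closedBall x (by positivity)]
    exact measureReal_mono ball_subset_closedBall (isCompact_closedBall _ _).measure_lt_top.ne
  have h6 : |Mf u r x - Mf u r y| ≤ M * ((2 * r) ^ N * kap N) * (L * ‖x - y‖ / r * (r ^ N)⁻¹) :=
    h3.trans (mul_le_mul_of_nonneg_right h4 (by positivity))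
  have h7 : M * ((2 * r) ^ N * kap N) * (L * ‖x - y‖ / r * (r ^ N)⁻¹) =
      L * kap N * 2 ^ N * (M * ‖x - y‖ / r) := by
    rw [mul_pow]
    field_simp
  rw [h7] at h6
  have h8 : |(cN N)⁻¹ * Mf u r x - (cN N)⁻¹ * Mf u r y| ≤
      (cN N)⁻¹ * (L * kap N * 2 ^ N * (M * ‖x - y‖ / r)) := by
    rw [← mul_sub, abs_mul, abs_of_pos (a := (cN N)⁻¹) (by positivity)]
    gcongr
  have h9 : |rep Ω u x - rep Ω u y| ≤ 2 * ((cN N)⁻¹ * kap N * K * r ^ 2) +
      (cN N)⁻¹ * (L * kap N * 2 ^ N * (M * ‖x - y‖ / r)) := by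
    rw [abs_le] at *
    constructor <;> linarith [h1.1, h1.2, h2.1, h2.2, h8.1, h8.2]
  refine h9.trans ?_
  have ha : 0 ≤ K * r ^ 2 := by positivity
  have hb' : 0 ≤ M * ‖x - y‖ / r := by positivity
  have hA : 0 ≤ (cN N)⁻¹ * kap N := by positivity
  have hB : 0 ≤ (cN N)⁻¹ * L * kap N * 2 ^ N := by positivity
  nlinarith [mul_nonneg hA hb', mul_nonneg hB ha]

end Pool.Agent.helper13.BN.Rep
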